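import Pool.Agent.Helper4.Glue

/-!
SAT is in NP: a program evaluating formulas.
-/

namespace Pool.Agent.Helper4.SatNP

open Function Turing Computability Pool.Agent.Helper72

/-- rule for loops computing a fold on a part of the state -/
theorem loop_fold {σ : Type} {f : Bool → St → St} {p : Bool → St → Prop} {r : ℕ}
    (get : St → σ) (step : Bool → σ → σ) (J : List Bool → St → Prop)
    (h : ∀ b l s, J (b :: l) s → p b (update s r l) ∧
      get (f b (update s r l)) = step b (get s) ∧ J l (f b (update s r l))) :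
    ∀ (l : List Bool) (s : St), J l s → loopLB f p r l s ∧
      get (loopEval f r l s) = l.foldl (fun x b => step b x) (get s) ∧ J [] (loopEval f r l s)
  | [], _, hs => ⟨trivial, rfl, hs⟩
  | b :: l, s, hs => by
    obtain ⟨h1, h2, h3⟩ := h b l s hs
    obtain ⟨h4, h5, h6⟩ := loop_fold get step J h l _ h3
    refine ⟨⟨h1, h4⟩, ?_, h6⟩
    rw [loopEval, h5, List.foldl_cons, h2]

/-! ### lookup of a name in the certificate -/

/-- state of the lookup: rest of the name, matched part, mismatch, pending bit, found -/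
structure LS where
  n : List Bool
  d : List Bool
  x : List Bool
  q : List Bool
  f : List Bool

@[simp] def lookF (b : Bool) : LS → LS
  | ⟨n, d, x, [], f⟩ => ⟨n, d, x, [b], f⟩
  | ⟨n, d, [], false :: q, f⟩ => ⟨d.reverse ++ n, [], [], q,
      match n, f with
      | [], [] => [true]
      | _, f => f⟩
  | ⟨n, d, x, false :: q, f⟩ => ⟨d.reverse ++ n, [], x.tail, q, f⟩
  | ⟨[], d, [], true :: q, f⟩ => ⟨[], d, [true], q, f⟩
  | ⟨c :: n, d, [], true :: q, f⟩ =>
      if c = b then ⟨n, b :: d, [], q, f⟩ else ⟨c :: n, d, [true], q, f⟩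
  | ⟨n, d, x, true :: q, f⟩ => ⟨n, d, x, q, f⟩

def lookB (b : Bool) : Cmd :=
  .ite 11 (.push 11 b)
    (.seq (.pop 11) (.seq (.ite 8 (.ite 3 (.ite 12 (.push 12 true) .nop .nop) .nop .nop) .nop .nop)
      (.seq (.pop 8) (.mv 7 3))))
    (.seq (.pop 11) (.ite 8
      (.ite 3 (.push 8 true)
        (if b then .push 8 true else .seq (.pop 3) (.push 7 false))
        (if b then .seq (.pop 3) (.push 7 true) else .push 8 true)) .nop .nop))

def lget (s : St) : LS := ⟨s 3, s 7, s 8, s 11, s 12⟩

theorem lookB_eval (b : Bool) (s : St) : lget ((lookB b).eval s) = lookF b (lget s) := by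
  obtain ⟨n, hn⟩ : ∃ n, s 3 = n := ⟨_, rfl⟩
  obtain ⟨d, hd⟩ : ∃ n, s 7 = n := ⟨_, rfl⟩
  obtain ⟨x, hx⟩ : ∃ n, s 8 = n := ⟨_, rfl⟩
  obtain ⟨q, hq⟩ : ∃ n, s 11 = n := ⟨_, rfl⟩
  obtain ⟨f, hf⟩ : ∃ n, s 12 = n := ⟨_, rfl⟩
  rcases q with _ | ⟨_ | _, q⟩
  · simp [lookB, Cmd.eval, lget, hn, hd, hx, hq, hf]
  · rcases x with _ | ⟨_ | _, x⟩ <;> rcases n with _ | ⟨_ | _, n⟩ <;>
      rcases f with _ | ⟨_ | _, f⟩ <;>
      simp [lookB, Cmd.eval, lget, hn, hd, hx, hq, hf, Cmd.eval_mv]
  · rcases x with _ | ⟨_ | _, x⟩ <;> rcases n with _ | ⟨_ | _, n⟩ <;> cases b <;>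
      simp [lookB, Cmd.eval, lget, hn, hd, hx, hq, hf]

theorem lookF_len (b : Bool) (x : LS) :
    (lookF b x).n.length + (lookF b x).d.length ≤ x.n.length + x.d.length := by
  obtain ⟨n, d, x, q, f⟩ := x
  rcases q with _ | ⟨_ | _, q⟩
  · simp
  · rcases x with _ | ⟨_ | _, x⟩ <;> simp <;> omega
  · rcases x with _ | ⟨_ | _, x⟩
    · rcases n with _ | ⟨c, n⟩
      · simp
      · by_cases h : c = b
        · simp [h]; omega
        · simp [h]
    · simp
    · simp

theorem lookF_f (b : Bool) (x : LS) (h : x.f = [] ∨ x.f = [true]) :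
    (lookF b x).f = [] ∨ (lookF b x).f = [true] := by
  obtain ⟨n, d, x, q, f⟩ := x
  simp only at h
  rcases q with _ | ⟨_ | _, q⟩
  · simpa using h
  · rcases x with _ | ⟨_ | _, x⟩
    · rcases n with _ | ⟨c, n⟩ <;> rcases h with h | h <;> simp [h]
    · simpa using h
    · simpa using h
  · rcases x with _ | ⟨_ | _, x⟩
    · rcases n with _ | ⟨c, n⟩
      · simpa using h
      · by_cases h' : c = b
        · simpa [h'] using h
        · simpa [h'] using h
    · simpa using h
    · simpa using h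

theorem lookB_LB (b : Bool) (s : St) {L : ℕ} (h : (s 7).length ≤ L) : (lookB b).LB L s := by
  have key : ∀ s' : St, s' 7 = s 7 → (Cmd.mv 7 3).LB L s' := fun s' hs' =>
    Cmd.LB_mv (by decide) (by rw [hs']; exact h)
  rcases hq : s 11 with _ | ⟨_ | _, q⟩
  · simp [lookB, Cmd.LB, hq]
  · simp only [lookB, Cmd.LB, hq]
    refine ⟨trivial, ?_, trivial, key _ ?_⟩
    · simp only [Cmd.eval_pop]
      repeat' split
      all_goals trivial
    · rw [Cmd.frame (by rfl), Cmd.frame (by rfl), Cmd.frame (by rfl)]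
  · simp only [lookB, Cmd.LB, hq]
    refine ⟨trivial, ?_⟩
    simp only [Cmd.eval_pop]
    cases b
    all_goals
      simp only [Cmd.LB, Bool.false_eq_true, if_false, if_true]
      repeat' split
      all_goals trivial

theorem lookF_xq (b : Bool) (x : LS) (hx : x.x.length ≤ 1) (hq : x.q.length ≤ 1) :
    (lookF b x).x.length ≤ 1 ∧ (lookF b x).q.length ≤ 1 := by
  obtain ⟨n, d, x, q, f⟩ := x
  simp only at hx hq
  rcases q with _ | ⟨_ | _, q⟩
  · simpa using hx
  · rcases x with _ | ⟨_ | _, x⟩ <;> simp at hx hq ⊢ <;> simp [hx, hq]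
  · rcases x with _ | ⟨_ | _, x⟩
    · rcases n with _ | ⟨c, n⟩
      · simp at hq ⊢; simp [hq]
      · by_cases h : c = b
        · simp [h] at hq ⊢; simp [hq]
        · simp [h] at hq ⊢; simp [hq]
    · simp at hx hq ⊢; simp [hx, hq]
    · simp at hx hq ⊢; simp [hx, hq]

/-- is the name `nm` found in the certificate `w`? -/
def look (w nm : List Bool) : Bool :=
  !(w.foldl (fun x b => lookF b x) ⟨nm, [], [], [], []⟩).f.isEmpty

/-- look up the name in register 3 and put the result on register 13 -/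
def lookP : Cmd :=
  .seq (.copy 1 9 10) (.seq (.loop 9 (lookB false) (lookB true))
    (.seq (.clear 3) (.seq (.clear 7) (.seq (.pop 8) (.seq (.pop 11)
      (.ite 12 (.push 13 false) .nop (.seq (.pop 12) (.push 13 true))))))))

theorem ok_lookP : lookP.ok = true := by rfl

theorem lookP_spec {w : List Bool} {L : ℕ} {s : St} (h1 : s 1 = w) (hw : w.length ≤ L)
    (h3 : (s 3).length ≤ L) (h7 : s 7 = []) (h8 : s 8 = []) (h9 : s 9 = []) (h10 : s 10 = [])
    (h11 : s 11 = []) (h12 : s 12 = []) :
    lookP.LB L s ∧ lookP.eval s = update (update s 3 []) 13 (look w (s 3) :: s 13) := by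
  have e1 : (Cmd.copy 1 9 10).eval s = update s 9 w := by
    rw [Cmd.eval_copy (by decide) (by decide) (by decide) h10, h1, h9, List.append_nil]
  have l1 : (Cmd.copy 1 9 10).LB L s :=
    Cmd.LB_copy (by decide) (by decide) (by decide) h10 (by rw [h1]; exact hw)
  obtain ⟨k1, k2, k3, k4, k5, k6, k7⟩ := loop_fold
    (f := fun b => if b then (lookB true).eval else (lookB false).eval)
    (p := fun b => if b then (lookB true).LB L else (lookB false).LB L) (r := 9)
    lget lookF (fun l s => s 9 = l ∧ (s 3).length + (s 7).length ≤ L ∧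
      (s 8).length ≤ 1 ∧ (s 11).length ≤ 1 ∧ (s 12 = [] ∨ s 12 = [true]))
    (by
      rintro b l s ⟨j1, j2, j3, j4, j5⟩
      have hb : (if b = true then (lookB true).eval else (lookB false).eval) = (lookB b).eval := by
        cases b <;> rfl
      have hb' : (if b = true then (lookB true).LB L else (lookB false).LB L)
        = (lookB b).LB L := by cases b <;> rfl
      simp only [hb, hb']
      have g1 : lget ((lookB b).eval (update s 9 l)) = lookF b (lget s) := by
        rw [lookB_eval]; rfl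
      have g2 : (lookB b).wr 9 = false := by cases b <;> rfl
      have a1 := lookF_len b (lget s)
      have a2 := lookF_f b (lget s) j5
      have a3 := lookF_xq b (lget s) j3 j4
      rw [← g1] at a1 a2 a3
      refine ⟨lookB_LB b _ ?_, g1, ?_, ?_, a3.1, a3.2, a2⟩
      · show (s 7).length ≤ L
        omega
      · rw [Cmd.frame g2, update_self]
      · exact a1.trans j2)
    w (update s 9 w) ⟨by simp, by simpa [h7] using h3, by simp [h8], by simp [h11],
      by simp [h12]⟩
  set s2 := loopEval (fun b => if b then (lookB true).eval else (lookB false).eval) 9 w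
    (update s 9 w) with hs2
  have e2 : (Cmd.loop 9 (lookB false) (lookB true)).eval (update s 9 w) = s2 := rfl
  have l2 : (Cmd.loop 9 (lookB false) (lookB true)).LB L (update s 9 w) := ⟨hw, k1⟩
  have fr : ∀ r, (Cmd.loop 9 (lookB false) (lookB true)).wr r = false → s2 r = s r := by
    intro r hr
    rw [← e2, Cmd.frame hr, update_of_ne]
    rintro rfl
    exact absurd hr (by decide)
  have hl : look w (s 3) = !(s2 12).isEmpty := by
    have : lget (update s 9 w) = ⟨s 3, [], [], [], []⟩ := by
      simp [lget, h7, h8, h11, h12]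
    rw [look, ← this, ← k2]
    rfl
  have tl : ∀ l : List Bool, l.length ≤ 1 → l.tail = [] := by
    rintro (_ | ⟨a, _ | ⟨b, l⟩⟩) h
    · rfl
    · rfl
    · simp at h
  constructor
  · refine ⟨l1, ?_⟩
    rw [e1]
    refine ⟨l2, ?_⟩
    rw [e2]
    refine ⟨Cmd.LB_clear (by omega), ?_⟩
    rw [Cmd.eval_clear]
    refine ⟨Cmd.LB_clear (by simp; omega), ?_⟩
    rw [Cmd.eval_clear]
    refine ⟨trivial, trivial, ?_⟩
    simp only [Cmd.LB]
    split <;> simp
  · rw [lookP]
    simp only [Cmd.eval_seq, e1, e2, Cmd.eval_clear, Cmd.eval_pop]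
    funext r
    have t8 := tl _ k5
    have t11 := tl _ k6
    have hv : s2 13 = s 13 := fr 13 rfl
    have hgen : ∀ r, r ≠ 3 → r ≠ 7 → r ≠ 8 → r ≠ 9 → r ≠ 11 → r ≠ 12 → s2 r = s r := by
      intro r q3 q7 q8 q9 q11 q12
      apply fr
      simp [Cmd.wr, lookB, Cmd.mv, q3, q7, q8, q9, q11, q12]
    have k3' : s2 9 = [] := k3
    rcases k7 with k7 | k7
    · simp only [Cmd.eval, update_of_ne (show 12 ≠ 11 by decide),
        update_of_ne (show 12 ≠ 8 by decide), update_of_ne (show 12 ≠ 7 by decide),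
        update_of_ne (show 12 ≠ 3 by decide), k7]
      rw [hl, k7]
      by_cases r13 : r = 13
      · subst r13; simp [hv]
      by_cases r12 : r = 12
      · subst r12; simp [k7, h12]
      by_cases r11 : r = 11
      · subst r11; simp [t11, h11]
      by_cases r9 : r = 9
      · subst r9; simp [k3', h9]
      by_cases r8 : r = 8
      · subst r8; simp [t8, h8]
      by_cases r7 : r = 7
      · subst r7; simp [h7]
      by_cases r3 : r = 3
      · subst r3; simp
      simp [r13, r11, r8, r7, r3, hgen r r3 r7 r8 r9 r11 r12]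
    · simp only [Cmd.eval, update_of_ne (show 12 ≠ 11 by decide),
        update_of_ne (show 12 ≠ 8 by decide), update_of_ne (show 12 ≠ 7 by decide),
        update_of_ne (show 12 ≠ 3 by decide), k7]
      rw [hl, k7]
      by_cases r13 : r = 13
      · subst r13; simp [hv]
      by_cases r12 : r = 12
      · subst r12; simp [h12]
      by_cases r11 : r = 11
      · subst r11; simp [t11, h11]
      by_cases r9 : r = 9
      · subst r9; simp [k3', h9]
      by_cases r8 : r = 8
      · subst r8; simp [t8, h8]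
      by_cases r7 : r = 7
      · subst r7; simp [h7]
      by_cases r3 : r = 3
      · subst r3; simp
      simp [r13, r12, r11, r8, r7, r3, hgen r r3 r7 r8 r9 r11 r12]

/-! ### the functional model of the evaluator -/

/-- pending bits (last, middle), name, value stack, error flag -/
structure MS where
  b1 : List Bool
  b2 : List Bool
  n : List Bool
  v : List Bool
  e : List Bool

/-- binary connective on the value stack -/
@[simp] def binF (g : Bool → Bool → Bool) : MS → MS
  | ⟨b1, b2, [], [], e⟩ => ⟨b1, b2, [], [], true :: e⟩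
  | ⟨b1, b2, [], [_], e⟩ => ⟨b1, b2, [], [], true :: e⟩
  | ⟨b1, b2, [], x :: y :: v, e⟩ => ⟨b1, b2, [], g x y :: v, e⟩
  | ⟨b1, b2, n, v, e⟩ => ⟨b1, b2, n, v, true :: e⟩

@[simp] def negF : MS → MS
  | ⟨b1, b2, [], x :: v, e⟩ => ⟨b1, b2, [], (!x) :: v, e⟩
  | ⟨b1, b2, n, v, e⟩ => ⟨b1, b2, n, v, true :: e⟩

/-- one symbol -/
@[simp] def symF (w : List Bool) : Bool → Bool → Bool → MS → MS
  | false, true, true, ⟨b1, b2, n, v, e⟩ => ⟨b1, b2, true :: n, v, e⟩
  | false, true, false, ⟨b1, b2, [], v, e⟩ => ⟨b1, b2, [], v, true :: e⟩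
  | false, true, false, ⟨b1, b2, a :: n, v, e⟩ => ⟨b1, b2, false :: a :: n, v, e⟩
  | false, false, true, ⟨b1, b2, n, v, e⟩ => ⟨b1, b2, [], look w n :: v, e⟩
  | true, false, false, x => negF x
  | true, false, true, x => binF (· && ·) x
  | true, true, false, x => binF (· || ·) x
  | _, _, _, ⟨b1, b2, n, v, e⟩ => ⟨b1, b2, n, v, true :: e⟩

/-- one bit (the word is read from the right) -/
@[simp] def bitF (w : List Bool) (b : Bool) : MS → MS
  | ⟨[], b2, n, v, e⟩ => ⟨[b], b2, n, v, e⟩
  | ⟨c1 :: b1, [], n, v, e⟩ => ⟨c1 :: b1, [b], n, v, e⟩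
  | ⟨c1 :: b1, c2 :: b2, n, v, e⟩ => symF w b c2 c1 ⟨b1, b2, n, v, e⟩

/-! ### the program -/

def errP : Cmd := .push 14 true

def binP (g : Bool → Bool → Bool) : Cmd :=
  .ite 3 (.ite 13 errP
    (.seq (.pop 13) (.ite 13 errP (.seq (.pop 13) (.push 13 (g false false)))
      (.seq (.pop 13) (.push 13 (g false true)))))
    (.seq (.pop 13) (.ite 13 errP (.seq (.pop 13) (.push 13 (g true false)))
      (.seq (.pop 13) (.push 13 (g true true)))))) errP errP

def negP : Cmd :=
  .ite 3 (.ite 13 errP (.seq (.pop 13) (.push 13 true)) (.seq (.pop 13) (.push 13 false)))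
    errP errP

def symP : Bool → Bool → Bool → Cmd
  | false, true, true => .push 3 true
  | false, true, false => .ite 3 errP (.push 3 false) (.push 3 false)
  | false, false, true => lookP
  | true, false, false => negP
  | true, false, true => binP (· && ·)
  | true, true, false => binP (· || ·)
  | _, _, _ => errP

def bitP (b : Bool) : Cmd :=
  .ite 5 (.push 5 b)
    (.ite 6 (.push 6 b) (.seq (.pop 5) (.seq (.pop 6) (symP b false false)))
      (.seq (.pop 5) (.seq (.pop 6) (symP b true false))))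
    (.ite 6 (.push 6 b) (.seq (.pop 5) (.seq (.pop 6) (symP b false true)))
      (.seq (.pop 5) (.seq (.pop 6) (symP b true true))))

def mget (s : St) : MS := ⟨s 5, s 6, s 3, s 13, s 14⟩

/-- the certificate is in place and the scratch registers are empty -/
structure Good (w : List Bool) (s : St) : Prop where
  h1 : s 1 = w
  h7 : s 7 = []
  h8 : s 8 = []
  h9 : s 9 = []
  h10 : s 10 = []
  h11 : s 11 = []
  h12 : s 12 = []

theorem Good.of_frame {w : List Bool} {s : St} {c : Cmd} (hg : Good w s)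
    (h : ∀ r, (r = 1 ∨ (7 ≤ r ∧ r ≤ 12)) → c.wr r = false) : Good w (c.eval s) := by
  constructor
  · rw [Cmd.frame (h 1 (by simp)), hg.h1]
  · rw [Cmd.frame (h 7 (by simp)), hg.h7]
  · rw [Cmd.frame (h 8 (by simp)), hg.h8]
  · rw [Cmd.frame (h 9 (by simp)), hg.h9]
  · rw [Cmd.frame (h 10 (by simp)), hg.h10]
  · rw [Cmd.frame (h 11 (by simp)), hg.h11]
  · rw [Cmd.frame (h 12 (by simp)), hg.h12]

theorem Good.upd {w : List Bool} {s : St} (hg : Good w s) {r : ℕ} (l : List Bool)
    (h : r ≠ 1 ∧ (r < 7 ∨ 12 < r)) : Good w (update s r l) := by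
  constructor
  · rw [update_of_ne (by omega), hg.h1]
  · rw [update_of_ne (by omega), hg.h7]
  · rw [update_of_ne (by omega), hg.h8]
  · rw [update_of_ne (by omega), hg.h9]
  · rw [update_of_ne (by omega), hg.h10]
  · rw [update_of_ne (by omega), hg.h11]
  · rw [update_of_ne (by omega), hg.h12]

theorem binP_spec (g : Bool → Bool → Bool) (s : St) (L : ℕ) : (binP g).LB L s ∧
    mget ((binP g).eval s) = binF g (mget s) := by
  obtain ⟨n, hn⟩ : ∃ n, s 3 = n := ⟨_, rfl⟩
  obtain ⟨v, hv⟩ : ∃ n, s 13 = n := ⟨_, rfl⟩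
  rcases n with _ | ⟨_ | _, n⟩
  · rcases v with _ | ⟨_ | _, _ | ⟨_ | _, v⟩⟩ <;>
      simp [binP, Cmd.LB, Cmd.eval, errP, mget, hn, hv]
  · simp [binP, Cmd.LB, Cmd.eval, errP, mget, hn]
  · simp [binP, Cmd.LB, Cmd.eval, errP, mget, hn]

theorem wr_binP (g : Bool → Bool → Bool) (r : ℕ) (h : r ≠ 13) (h' : r ≠ 14) :
    (binP g).wr r = false := by
  simp [binP, Cmd.wr, errP, h, h']

theorem negP_spec (s : St) (L : ℕ) : negP.LB L s ∧ mget (negP.eval s) = negF (mget s) := by
  obtain ⟨n, hn⟩ : ∃ n, s 3 = n := ⟨_, rfl⟩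
  obtain ⟨v, hv⟩ : ∃ n, s 13 = n := ⟨_, rfl⟩
  rcases n with _ | ⟨_ | _, n⟩
  · rcases v with _ | ⟨_ | _, v⟩ <;>
      simp [negP, Cmd.LB, Cmd.eval, errP, mget, hn, hv]
  · simp [negP, Cmd.LB, Cmd.eval, errP, mget, hn]
  · simp [negP, Cmd.LB, Cmd.eval, errP, mget, hn]

theorem wr_negP (r : ℕ) (h : r ≠ 13) (h' : r ≠ 14) : negP.wr r = false := by
  simp [negP, Cmd.wr, errP, h, h']

theorem symP_spec (w : List Bool) (b c d : Bool) (s : St) {L : ℕ} (hg : Good w s)
    (hw : w.length ≤ L) (h3 : (s 3).length ≤ L) : (symP b c d).LB L s ∧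
    mget ((symP b c d).eval s) = symF w b c d (mget s) ∧ Good w ((symP b c d).eval s) := by
  have hwr : ∀ r, (r = 1 ∨ (7 ≤ r ∧ r ≤ 12)) → r ≠ 3 ∧ r ≠ 13 ∧ r ≠ 14 := by
    intro r hr; omega
  have herr : errP.LB L s ∧ mget (errP.eval s) = ⟨s 5, s 6, s 3, s 13, true :: s 14⟩ ∧
      Good w (errP.eval s) := by
    refine ⟨trivial, by simp [errP, mget], hg.of_frame fun r hr => ?_⟩
    simp [errP, Cmd.wr, (hwr r hr).2.2]
  cases b <;> cases c <;> cases d
  · exact herr
  · obtain ⟨k1, k2⟩ := lookP_spec hg.h1 hw h3 hg.h7 hg.h8 hg.h9 hg.h10 hg.h11 hg.h12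
    refine ⟨k1, ?_, ?_⟩
    · show mget (lookP.eval s) = _
      rw [k2]
      simp [mget]
    · show Good w (lookP.eval s)
      rw [k2]
      exact (hg.upd _ (by decide)).upd _ (by decide)
  · refine ⟨?_, ?_, hg.of_frame fun r hr => ?_⟩
    · simp only [symP, Cmd.LB]
      split <;> trivial
    · obtain ⟨n, hn⟩ : ∃ n, s 3 = n := ⟨_, rfl⟩
      rcases n with _ | ⟨_ | _, n⟩ <;> simp [symP, Cmd.eval, errP, mget, hn]
    · simp [symP, errP, Cmd.wr, hwr r hr]
  · refine ⟨trivial, by simp [symP, mget], hg.of_frame fun r hr => ?_⟩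
    simp [symP, Cmd.wr, hwr r hr]
  · obtain ⟨k1, k2⟩ := negP_spec s L
    exact ⟨k1, k2, hg.of_frame fun r hr => wr_negP r (hwr r hr).2.1 (hwr r hr).2.2⟩
  · obtain ⟨k1, k2⟩ := binP_spec (· && ·) s L
    exact ⟨k1, k2, hg.of_frame fun r hr => wr_binP _ r (hwr r hr).2.1 (hwr r hr).2.2⟩
  · obtain ⟨k1, k2⟩ := binP_spec (· || ·) s L
    exact ⟨k1, k2, hg.of_frame fun r hr => wr_binP _ r (hwr r hr).2.1 (hwr r hr).2.2⟩
  · exact herr

theorem bitP_spec (w : List Bool) (b : Bool) (s : St) {L : ℕ} (hg : Good w s)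
    (hw : w.length ≤ L) (h3 : (s 3).length ≤ L) : (bitP b).LB L s ∧
    mget ((bitP b).eval s) = bitF w b (mget s) ∧ Good w ((bitP b).eval s) := by
  obtain ⟨b1, h5⟩ : ∃ n, s 5 = n := ⟨_, rfl⟩
  obtain ⟨b2, h6⟩ : ∃ n, s 6 = n := ⟨_, rfl⟩
  rcases b1 with _ | ⟨c1, b1⟩
  · have e : (bitP b).eval s = update s 5 (b :: s 5) := by
      simp [bitP, Cmd.eval, h5]
    refine ⟨by simp [bitP, Cmd.LB, h5], ?_, ?_⟩
    · rw [e]; simp [mget, h5]
    · rw [e]; exact hg.upd _ (by decide)
  · rcases b2 with _ | ⟨c2, b2⟩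
    · have e : (bitP b).eval s = update s 6 (b :: s 6) := by
        cases c1 <;> simp [bitP, Cmd.eval, h5, h6]
      refine ⟨by cases c1 <;> simp [bitP, Cmd.LB, h5, h6], ?_, ?_⟩
      · rw [e]; simp [mget, h5, h6]
      · rw [e]; exact hg.upd _ (by decide)
    · have e : (bitP b).eval s = (symP b c2 c1).eval (update (update s 5 b1) 6 b2) := by
        cases c1 <;> cases c2 <;> simp [bitP, Cmd.eval, h5, h6]
      obtain ⟨k1, k2, k3⟩ := symP_spec w b c2 c1 (update (update s 5 b1) 6 b2) (L := L)
        ((hg.upd _ (by decide)).upd _ (by decide)) hw (by simpa using h3)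
      refine ⟨?_, ?_, ?_⟩
      · cases c1 <;> cases c2 <;> simpa [bitP, Cmd.LB, h5, h6] using k1
      · rw [e, k2]
        simp [mget, h5, h6]
      · rw [e]; exact k3

theorem symF_n (w : List Bool) (b c d : Bool) (x : MS) :
    (symF w b c d x).n.length ≤ x.n.length + 1 := by
  obtain ⟨b1, b2, n, v, e⟩ := x
  cases b <;> cases c <;> cases d
  · simp
  · simp
  · rcases n with _ | ⟨a, n⟩ <;> simp
  · simp
  · rcases n with _ | ⟨a, n⟩ <;> rcases v with _ | ⟨x, v⟩ <;> simp
  · rcases n with _ | ⟨a, n⟩ <;> rcases v with _ | ⟨x, _ | ⟨y, v⟩⟩ <;> simp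
  · rcases n with _ | ⟨a, n⟩ <;> rcases v with _ | ⟨x, _ | ⟨y, v⟩⟩ <;> simp
  · simp

theorem bitF_n (w : List Bool) (b : Bool) (x : MS) :
    (bitF w b x).n.length ≤ x.n.length + 1 := by
  obtain ⟨b1, b2, n, v, e⟩ := x
  rcases b1 with _ | ⟨c1, b1⟩
  · simp
  · rcases b2 with _ | ⟨c2, b2⟩
    · simp
    · rw [bitF]
      exact symF_n w b c2 c1 _

/-- final state of the functional model -/
def run (w z : List Bool) : MS :=
  z.reverse.foldl (fun x b => bitF w b x) ⟨[], [], [], [], []⟩

def accept (x : MS) : Bool := x.e.isEmpty && x.b1.isEmpty && x.n.isEmpty && (x.v == [true])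

/-- the evaluator -/
def satP : Cmd :=
  .seq (.mv 0 4) (.seq (.loop 4 (bitP false) (bitP true))
    (.ite 14 (.ite 5 (.ite 3 (.ite 13 .nop .nop
      (.seq (.pop 13) (.ite 13 (.push 2 true) .nop .nop))) .nop .nop) .nop .nop) .nop .nop))

theorem ok_satP : satP.ok = true := by rfl

theorem satP_spec (z w : List Bool) : satP.LB (z.length + w.length) (Glue.init2 z w) ∧
    satP.eval (Glue.init2 z w) 2 = if accept (run w z) then [true] else [] := by
  set L := z.length + w.length with hL
  set s0 := Glue.init2 z w with hs0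
  have i0 : s0 0 = z := rfl
  have i1 : s0 1 = w := rfl
  have ii : ∀ r, 1 < r → s0 r = [] := by
    intro r hr
    simp [hs0, Glue.init2, show r ≠ 0 by omega, show r ≠ 1 by omega]
  have e1 : (Cmd.mv 0 4).eval s0 = update (update s0 0 []) 4 z.reverse := by
    rw [Cmd.eval_mv (by decide), i0, ii 4 (by decide), List.append_nil]
  have l1 : (Cmd.mv 0 4).LB L s0 := Cmd.LB_mv (by decide) (by rw [i0]; omega)
  set s1 := update (update s0 0 []) 4 z.reverse with hs1
  have j : ∀ r, 1 < r → r ≠ 4 → s1 r = [] := by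
    intro r hr h4
    rw [hs1, update_of_ne h4, update_of_ne (by omega)]
    exact ii r hr
  have g1 : Good w s1 := by
    refine ⟨?_, j 7 (by decide) (by decide), j 8 (by decide) (by decide),
      j 9 (by decide) (by decide), j 10 (by decide) (by decide), j 11 (by decide) (by decide),
      j 12 (by decide) (by decide)⟩
    rw [hs1, update_of_ne (by decide), update_of_ne (by decide), i1]
  obtain ⟨k1, k2, k3, k4, k5⟩ := loop_fold
    (f := fun b => if b then (bitP true).eval else (bitP false).eval)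
    (p := fun b => if b then (bitP true).LB L else (bitP false).LB L) (r := 4)
    mget (bitF w) (fun l s => Good w s ∧ (s 3).length + l.length ≤ z.length ∧ s 2 = [])
    (by
      rintro b l s ⟨j1, j2, j3⟩
      have hb : (if b = true then (bitP true).eval else (bitP false).eval) = (bitP b).eval := by
        cases b <;> rfl
      have hb' : (if b = true then (bitP true).LB L else (bitP false).LB L)
        = (bitP b).LB L := by cases b <;> rfl
      simp only [hb, hb']
      simp only [List.length_cons] at j2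
      obtain ⟨q1, q2, q3⟩ := bitP_spec w b (update s 4 l) (L := L) (j1.upd _ (by decide))
        (by omega) (by rw [update_of_ne (by decide)]; omega)
      have q4 : mget (update s 4 l) = mget s := rfl
      rw [q4] at q2
      have a1 := bitF_n w b (mget s)
      rw [← q2] at a1
      refine ⟨q1, q2, q3, ?_, ?_⟩
      · have a2 : ((bitP b).eval (update s 4 l) 3).length ≤ (s 3).length + 1 := a1
        omega
      · rw [Cmd.frame (by cases b <;> rfl), update_of_ne (by decide), j3])
    z.reverse s1 ⟨g1, by simp [j 3 (by decide) (by decide)], j 2 (by decide) (by decide)⟩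
  set s2 := loopEval (fun b => if b then (bitP true).eval else (bitP false).eval) 4 z.reverse
    s1 with hs2
  have h4 : s1 4 = z.reverse := by rw [hs1, update_self]
  have e2 : (Cmd.loop 4 (bitP false) (bitP true)).eval s1 = s2 := by
    show loopEval _ 4 (s1 4) s1 = _
    rw [h4]
  have l2 : (Cmd.loop 4 (bitP false) (bitP true)).LB L s1 := by
    refine ⟨by rw [h4]; simp [hL], ?_⟩
    rw [h4]; exact k1
  have k2' : mget s2 = run w z := by
    rw [k2, run]
    have : mget s1 = ⟨[], [], [], [], []⟩ := by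
      simp [mget, j]
    rw [this]
  constructor
  · refine ⟨l1, ?_⟩
    rw [e1]
    refine ⟨l2, ?_⟩
    rw [e2]
    simp only [Cmd.LB]
    repeat' split
    all_goals trivial
  · rw [satP]
    simp only [Cmd.eval_seq, e1, e2]
    rw [← k2']
    have k5' : s2 2 = [] := k5
    obtain ⟨e, he⟩ : ∃ n, s2 14 = n := ⟨_, rfl⟩
    obtain ⟨b1, hb1⟩ : ∃ n, s2 5 = n := ⟨_, rfl⟩
    obtain ⟨n, hn⟩ : ∃ n, s2 3 = n := ⟨_, rfl⟩
    obtain ⟨v, hv⟩ : ∃ n, s2 13 = n := ⟨_, rfl⟩
    rcases e with _ | ⟨_ | _, e⟩
    · rcases b1 with _ | ⟨_ | _, b1⟩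
      · rcases n with _ | ⟨_ | _, n⟩
        · rcases v with _ | ⟨_ | _, _ | ⟨_ | _, v⟩⟩ <;>
            simp [Cmd.eval, mget, accept, he, hb1, hn, hv, k5']
        · simp [Cmd.eval, mget, accept, he, hb1, hn, k5']
        · simp [Cmd.eval, mget, accept, he, hb1, hn, k5']
      · simp [Cmd.eval, mget, accept, he, hb1, k5']
      · simp [Cmd.eval, mget, accept, he, hb1, k5']
    · simp [Cmd.eval, mget, accept, he, k5']
    · simp [Cmd.eval, mget, accept, he, k5']

/-! ### correctness of the functional model -/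

/-- assignment given by a certificate -/
def asg (w : List Bool) (n : ℕ) : Bool := look w (encodeNat n)

theorem fold_sym (w : List Bool) (b c d : Bool) (n v e : List Bool) :
    [d, c, b].foldl (fun x b => bitF w b x) ⟨[], [], n, v, e⟩ =
      symF w b c d ⟨[], [], n, v, e⟩ := by
  simp [bitF]

theorem encodePosNum_last (p : PosNum) : ∃ l, encodePosNum p = l ++ [true] := by
  induction p with
  | one => exact ⟨[], rfl⟩
  | bit0 p ih => obtain ⟨l, hl⟩ := ih; exact ⟨false :: l, by rw [encodePosNum, hl]; rfl⟩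
  | bit1 p ih => obtain ⟨l, hl⟩ := ih; exact ⟨true :: l, by rw [encodePosNum, hl]; rfl⟩

theorem encodeNat_last (n : ℕ) : encodeNat n = [] ∨ ∃ l, encodeNat n = l ++ [true] := by
  unfold encodeNat
  generalize (n : Num) = m
  cases m with
  | zero => exact Or.inl rfl
  | pos p => exact Or.inr (encodePosNum_last p)

theorem exists_encodePosNum (l : List Bool) : ∃ p, encodePosNum p = l ++ [true] := by
  induction l with
  | nil => exact ⟨.one, rfl⟩
  | cons b l ih =>
    obtain ⟨p, hp⟩ := ih
    cases b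
    · exact ⟨.bit0 p, by rw [encodePosNum, hp]; rfl⟩
    · exact ⟨.bit1 p, by rw [encodePosNum, hp]; rfl⟩

theorem exists_encodeNat (l : List Bool) : ∃ n, encodeNat n = l ++ [true] := by
  obtain ⟨p, hp⟩ := exists_encodePosNum l
  refine ⟨((Num.pos p : Num) : ℕ), ?_⟩
  unfold encodeNat
  rw [Num.of_to_nat]
  exact hp

theorem fold_digits (w : List Bool) (l : List Bool) : ∀ (n v e : List Bool),
    (n ≠ [] ∨ l = [] ∨ ∃ l', l = l' ++ [true]) →
    (l.flatMap (fun b => [false, true, b])).reverse.foldl (fun x b => bitF w b x)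
      ⟨[], [], n, v, e⟩ = ⟨[], [], l ++ n, v, e⟩ := by
  induction l using List.reverseRecOn with
  | nil => intro n v e _; simp
  | append_singleton l c ih =>
    intro n v e h
    rw [List.flatMap_append, List.reverse_append, List.foldl_append]
    have h1 : ([c].flatMap (fun b => [false, true, b])).reverse = [c, true, false] := by simp
    rw [h1, fold_sym]
    have h2 : symF w false true c ⟨[], [], n, v, e⟩ = ⟨[], [], c :: n, v, e⟩ := by
      cases c
      · rcases n with _ | ⟨a, n⟩
        · exfalso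
          rcases h with h | h | ⟨l', h⟩
          · exact h rfl
          · simp at h
          · have := congrArg List.getLast? h
            simp at this
        · simp
      · simp
    rw [h2, ih _ _ _ (Or.inl (by simp))]
    simp

theorem fold_code (w : List Bool) (φ : BForm) (v e : List Bool) :
    φ.code.reverse.foldl (fun x b => bitF w b x) ⟨[], [], [], v, e⟩ =
      ⟨[], [], [], φ.eval (asg w) :: v, e⟩ := by
  induction φ generalizing v with
  | var n =>
    rw [BForm.code, List.reverse_append, List.foldl_append, fold_digits]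
    · simp [asg, BForm.eval]
    · rcases encodeNat_last n with h | ⟨l, h⟩
      · exact Or.inr (Or.inl h)
      · exact Or.inr (Or.inr ⟨l, h⟩)
  | neg φ ih =>
    rw [BForm.code, List.reverse_append, List.foldl_append, ih]
    simp [BForm.eval]
  | conj φ ψ h1 h2 =>
    rw [BForm.code, List.reverse_append, List.reverse_append, List.foldl_append,
      List.foldl_append, h2, h1]
    simp [BForm.eval]
  | disj φ ψ h1 h2 =>
    rw [BForm.code, List.reverse_append, List.reverse_append, List.foldl_append,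
      List.foldl_append, h2, h1]
    simp [BForm.eval]

theorem accept_code (w : List Bool) (φ : BForm) :
    accept (run w φ.code) = φ.eval (asg w) := by
  rw [run, fold_code]
  cases φ.eval (asg w) <;> rfl

/-- invariant of an accepting run: `y` is the part read so far -/
def Inv (w y : List Bool) (x : MS) : Prop :=
  x.e ≠ [] ∨ ∃ φs : List BForm, x.v = φs.map (BForm.eval (asg w)) ∧
    y = x.b2 ++ x.b1 ++ x.n.flatMap (fun b => [false, true, b]) ++ φs.flatMap BForm.code ∧
    (x.n = [] ∨ ∃ l, x.n = l ++ [true]) ∧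
    (x.b1 = [] ∧ x.b2 = [] ∨ ∃ c, x.b1 = [c] ∧ (x.b2 = [] ∨ ∃ d, x.b2 = [d]))

theorem symF_e (w : List Bool) (b c d : Bool) (x : MS) (h : x.e ≠ []) :
    (symF w b c d x).e ≠ [] := by
  obtain ⟨b1, b2, n, v, e⟩ := x
  simp only at h
  cases b <;> cases c <;> cases d
  · simp
  · simpa using h
  · rcases n with _ | ⟨a, n⟩
    · simp
    · simpa using h
  · simpa using h
  · rcases n with _ | ⟨a, n⟩ <;> rcases v with _ | ⟨x, v⟩ <;> simp [h]
  · rcases n with _ | ⟨a, n⟩ <;> rcases v with _ | ⟨x, _ | ⟨y, v⟩⟩ <;> simp [h]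
  · rcases n with _ | ⟨a, n⟩ <;> rcases v with _ | ⟨x, _ | ⟨y, v⟩⟩ <;> simp [h]
  · simp

theorem bitF_e (w : List Bool) (b : Bool) (x : MS) (h : x.e ≠ []) : (bitF w b x).e ≠ [] := by
  obtain ⟨b1, b2, n, v, e⟩ := x
  rcases b1 with _ | ⟨c1, b1⟩
  · simpa using h
  · rcases b2 with _ | ⟨c2, b2⟩
    · simpa using h
    · rw [bitF]
      exact symF_e w b c2 c1 _ h

theorem inv_sym (w y : List Bool) (b c d : Bool) (n v e : List Bool) (φs : List BForm)
    (hv : v = φs.map (BForm.eval (asg w)))
    (hy : y = n.flatMap (fun b => [false, true, b]) ++ φs.flatMap BForm.code)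
    (hn : n = [] ∨ ∃ l, n = l ++ [true]) :
    Inv w (b :: c :: d :: y) (symF w b c d ⟨[], [], n, v, e⟩) := by
  subst hv hy
  cases b <;> cases c <;> cases d
  · left; simp
  · right
    obtain ⟨m, hm⟩ : ∃ m, encodeNat m = n := by
      rcases hn with rfl | ⟨l, rfl⟩
      · exact ⟨0, rfl⟩
      · exact exists_encodeNat l
    refine ⟨.var m :: φs, ?_, ?_, Or.inl rfl, Or.inl ⟨rfl, rfl⟩⟩
    · simp [BForm.eval, asg, hm]
    · simp [BForm.code, hm]
  · rcases n with _ | ⟨a, n⟩
    · left; simp
    · right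
      refine ⟨φs, rfl, by simp, Or.inr ?_, Or.inl ⟨rfl, rfl⟩⟩
      rcases hn with hn | ⟨l, hn⟩
      · simp at hn
      · exact ⟨false :: l, by simp [hn]⟩
  · right
    refine ⟨φs, rfl, by simp, Or.inr ?_, Or.inl ⟨rfl, rfl⟩⟩
    rcases hn with hn | ⟨l, hn⟩
    · exact ⟨[], by simp [hn]⟩
    · exact ⟨true :: l, by simp [hn]⟩
  · rcases n with _ | ⟨a, n⟩
    · rcases φs with _ | ⟨φ, φs⟩
      · left; simp
      · right
        exact ⟨.neg φ :: φs, by simp [BForm.eval], by simp [BForm.code], Or.inl rfl,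
          Or.inl ⟨rfl, rfl⟩⟩
    · left; simp
  · rcases n with _ | ⟨a, n⟩
    · rcases φs with _ | ⟨φ, _ | ⟨ψ, φs⟩⟩
      · left; simp
      · left; simp
      · right
        exact ⟨.conj φ ψ :: φs, by simp [BForm.eval], by simp [BForm.code], Or.inl rfl,
          Or.inl ⟨rfl, rfl⟩⟩
    · left; simp
  · rcases n with _ | ⟨a, n⟩
    · rcases φs with _ | ⟨φ, _ | ⟨ψ, φs⟩⟩
      · left; simp
      · left; simp
      · right
        exact ⟨.disj φ ψ :: φs, by simp [BForm.eval], by simp [BForm.code], Or.inl rfl,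
          Or.inl ⟨rfl, rfl⟩⟩
    · left; simp
  · left; simp

theorem inv_step (w y : List Bool) (b : Bool) (x : MS) (h : Inv w y x) :
    Inv w (b :: y) (bitF w b x) := by
  rcases h with h | ⟨φs, hv, hy, hn, hb⟩
  · exact Or.inl (bitF_e w b x h)
  obtain ⟨b1, b2, n, v, e⟩ := x
  simp only at hv hy hn hb
  rcases hb with ⟨rfl, rfl⟩ | ⟨c, rfl, rfl | ⟨d, rfl⟩⟩
  · exact Or.inr ⟨φs, hv, by simp [hy], hn, Or.inr ⟨b, rfl, Or.inl rfl⟩⟩
  · exact Or.inr ⟨φs, hv, by simp [hy], hn, Or.inr ⟨c, rfl, Or.inr ⟨b, rfl⟩⟩⟩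
  · rw [bitF]
    have := inv_sym w _ b d c n v e φs hv rfl hn
    rw [hy]
    simpa using this

theorem inv_run (w z : List Bool) : Inv w z (run w z) := by
  induction z with
  | nil =>
    refine Or.inr ⟨[], rfl, ?_, Or.inl rfl, Or.inl ⟨rfl, rfl⟩⟩
    rfl
  | cons b z ih =>
    have : run w (b :: z) = bitF w b (run w z) := by
      simp [run, List.foldl_append]
    rw [this]
    exact inv_step w z b _ ih

theorem accept_sound (w z : List Bool) (h : accept (run w z) = true) :
    ∃ φ : BForm, φ.code = z ∧ φ.eval (asg w) = true := by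
  have hi := inv_run w z
  generalize run w z = x at h hi
  obtain ⟨b1, b2, n, v, e⟩ := x
  simp only [accept, Bool.and_eq_true, List.isEmpty_iff, beq_iff_eq] at h
  obtain ⟨⟨⟨rfl, rfl⟩, rfl⟩, rfl⟩ := h
  rcases hi with hi | ⟨φs, h1, h2, -, h4⟩
  · exact absurd rfl hi
  · have hb2 : b2 = [] := by
      rcases h4 with ⟨-, h4⟩ | ⟨c, h4, -⟩
      · exact h4
      · simp at h4
    subst hb2
    rcases φs with _ | ⟨φ, _ | ⟨ψ, φs⟩⟩
    · simp at h1
    · refine ⟨φ, ?_, ?_⟩
      · simpa using h2.symm
      · simpa using h1.symm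
    · simp at h1

/-! ### certificates -/

/-- code of a list of names -/
def cert (l : List ℕ) : List Bool :=
  l.flatMap fun n => (encodeNat n).flatMap (fun b => [true, b]) ++ [false, false]

theorem fold_mis (m : List Bool) (n d f : List Bool) :
    (m.flatMap (fun b => [true, b])).foldl (fun x b => lookF b x) ⟨n, d, [true], [], f⟩
      = ⟨n, d, [true], [], f⟩ := by
  induction m with
  | nil => rfl
  | cons a m ih => simpa using ih

theorem fold_pref (m : List Bool) : ∀ (n d f : List Bool),
    (m.flatMap (fun b => [true, b])).foldl (fun x b => lookF b x) ⟨m ++ n, d, [], [], f⟩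
      = ⟨n, m.reverse ++ d, [], [], f⟩ := by
  induction m with
  | nil => intro n d f; rfl
  | cons a m ih =>
    intro n d f
    have := ih n (a :: d) f
    simpa using this

theorem fold_npref (m : List Bool) : ∀ (n d f : List Bool), ¬ m <+: n →
    ∃ n' d', (m.flatMap (fun b => [true, b])).foldl (fun x b => lookF b x) ⟨n, d, [], [], f⟩
      = ⟨n', d', [true], [], f⟩ ∧ d'.reverse ++ n' = d.reverse ++ n := by
  induction m with
  | nil => intro n d f h; exact absurd (List.nil_prefix) h
  | cons a m ih =>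
    intro n d f h
    rcases n with _ | ⟨c, n⟩
    · refine ⟨[], d, ?_, rfl⟩
      simpa using fold_mis m [] d f
    · by_cases hc : c = a
      · subst hc
        have h' : ¬ m <+: n := by simpa using h
        obtain ⟨n', d', h1, h2⟩ := ih n (c :: d) f h'
        refine ⟨n', d', ?_, ?_⟩
        · simpa using h1
        · simpa using h2
      · refine ⟨c :: n, d, ?_, rfl⟩
        simpa [hc] using fold_mis m (c :: n) d f

theorem fold_entry (m nm f : List Bool) (hf : f = [] ∨ f = [true]) :
    (m.flatMap (fun b => [true, b]) ++ [false, false]).foldl (fun x b => lookF b x)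
      ⟨nm, [], [], [], f⟩ = ⟨nm, [], [], [], if m = nm then [true] else f⟩ := by
  rw [List.foldl_append]
  by_cases h : m <+: nm
  · obtain ⟨n', rfl⟩ := h
    rw [fold_pref]
    rcases n' with _ | ⟨c, n'⟩
    · rcases hf with rfl | rfl <;> simp
    · simp
  · obtain ⟨n', d', h1, h2⟩ := fold_npref m nm [] f h
    rw [h1]
    have h3 : m ≠ nm := fun e => h (e ▸ List.prefix_rfl)
    simp only [List.reverse_nil, List.nil_append] at h2
    simp [h2, h3]

theorem fold_cert (l : List ℕ) : ∀ (nm f : List Bool), (f = [] ∨ f = [true]) →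
    (cert l).foldl (fun x b => lookF b x) ⟨nm, [], [], [], f⟩ =
      ⟨nm, [], [], [], if nm ∈ l.map encodeNat then [true] else f⟩ := by
  induction l with
  | nil => intro nm f _; simp [cert]
  | cons a l ih =>
    intro nm f hf
    have : cert (a :: l) = ((encodeNat a).flatMap (fun b => [true, b]) ++ [false, false]) ++
      cert l := by simp [cert]
    rw [this, List.foldl_append, fold_entry _ _ _ hf, ih]
    · by_cases h1 : encodeNat a = nm
      · simp [h1]
      · by_cases h2 : nm ∈ l.map encodeNat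
        · have : nm ∈ (a :: l).map encodeNat := by
            rw [List.map_cons, List.mem_cons]; exact Or.inr h2
          rw [if_pos h2, if_pos this]
        · have : nm ∉ (a :: l).map encodeNat := by
            rw [List.map_cons, List.mem_cons]
            rintro (h | h)
            · exact h1 h.symm
            · exact h2 h
          rw [if_neg h2, if_neg this, if_neg h1]
    · split
      · exact Or.inr rfl
      · exact hf

theorem look_cert (l : List ℕ) (n : ℕ) : asg (cert l) n = decide (n ∈ l) := by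
  have hinj : Function.Injective encodeNat := fun a b h => by
    rw [← decode_encodeNat a, h, decode_encodeNat]
  rw [asg, look, fold_cert _ _ _ (Or.inl rfl)]
  by_cases h : n ∈ l
  · have : encodeNat n ∈ l.map encodeNat := List.mem_map_of_mem h
    rw [if_pos this]; simp [h]
  · have : encodeNat n ∉ l.map encodeNat := by
      rw [List.mem_map_of_injective hinj]; exact h
    rw [if_neg this]; simp [h]

def vars : BForm → List ℕ
  | .var n => [n]
  | .neg φ => vars φ
  | .conj φ ψ => vars φ ++ vars ψ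
  | .disj φ ψ => vars φ ++ vars ψ

theorem eval_congr (φ : BForm) {v v' : ℕ → Bool} (h : ∀ n ∈ vars φ, v n = v' n) :
    φ.eval v = φ.eval v' := by
  induction φ with
  | var n => exact h n (by simp [vars])
  | neg φ ih => simp only [BForm.eval]; rw [ih h]
  | conj φ ψ h1 h2 =>
    simp only [BForm.eval]
    rw [h1 fun n hn => h n (by simp [vars, hn]), h2 fun n hn => h n (by simp [vars, hn])]
  | disj φ ψ h1 h2 =>
    simp only [BForm.eval]
    rw [h1 fun n hn => h n (by simp [vars, hn]), h2 fun n hn => h n (by simp [vars, hn])]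

theorem cert_length (φ : BForm) (v : ℕ → Bool) :
    (cert ((vars φ).filter fun n => v n)).length ≤ φ.code.length := by
  induction φ with
  | var n =>
    simp only [vars, BForm.code]
    by_cases h : v n = true
    · simp [h, cert, List.length_flatMap]
      omega
    · simp [h, cert]
  | neg φ ih => simp only [vars, BForm.code]; simp; omega
  | conj φ ψ h1 h2 =>
    simp only [vars, BForm.code, List.filter_append, cert, List.flatMap_append,
      List.length_append] at h1 h2 ⊢
    omega
  | disj φ ψ h1 h2 =>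
    simp only [vars, BForm.code, List.filter_append, cert, List.flatMap_append,
      List.length_append] at h1 h2 ⊢
    omega

theorem sat_inNP : InNP SAT := by
  refine Glue.inNP_of_cmd satP ok_satP 2 (fun n => n) PB.id (fun _ _ h => h) Polynomial.X
    (fun z w => accept (run w z)) (fun z w => satP_spec z w) fun z => ⟨?_, ?_⟩
  · rintro ⟨φ, rfl, v, hv⟩
    refine ⟨cert ((vars φ).filter fun n => v n), ?_, ?_⟩
    · rw [Polynomial.eval_X]; exact cert_length φ v
    · rw [accept_code, ← hv]
      refine eval_congr φ fun n hn => ?_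
      rw [look_cert]
      simp [hn]
  · rintro ⟨w, -, h⟩
    obtain ⟨φ, h1, h2⟩ := accept_sound w z h
    exact ⟨φ, h1, _, h2⟩

end Pool.Agent.Helper4.SatNP
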