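import Pool.Agent.Helper72.Flat
import Pool.Agent.Helper72.Blocks
import Pool.Agent.Helper72.Defs

/-!
From programs of the internal language to the official notions: outputs of machines,
membership in P and in NP.
-/

namespace Pool.Agent.Helper4.Glue

open Function Turing Computability StateTransition Pool.Agent.Helper72

/-! ### lengths of registers -/

theorem loopEval_len {f : Bool → St → St} {t : Bool → St → ℕ} {r x : ℕ}
    (h : ∀ b s, (f b s x).length ≤ (s x).length + t b s) : ∀ (l : List Bool) (s : St), s r = l →
    (∀ b s, f b s r = s r) →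
    (loopEval f r l s x).length ≤ (s x).length + loopTime f t r l s
  | [], s, _, _ => by simp [loopEval]
  | b :: l, s, hs, hr => by
    rw [loopEval, loopTime]
    have h1 := loopEval_len h l (f b (update s r l)) (by rw [hr]; simp) hr
    have h2 := h b (update s r l)
    have h3 : (update s r l x).length ≤ (s x).length := by
      by_cases hx : x = r
      · subst hx; simp [hs]
      · rw [update_of_ne hx]
    omega

theorem len_le_time {c : Cmd} (hok : c.ok = true) (s : St) (x : ℕ) :
    (c.eval s x).length ≤ (s x).length + c.time s := by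
  induction c generalizing s with
  | nop => simp [Cmd.eval]
  | push r b =>
    by_cases hx : x = r
    · subst hx; simp [Cmd.eval, Cmd.time]
    · simp [Cmd.eval, hx]
  | pop r =>
    by_cases hx : x = r
    · subst hx; simp [Cmd.eval, Cmd.time]; omega
    · simp [Cmd.eval, hx]
  | seq c d hc hd =>
    simp only [Cmd.ok, Bool.and_eq_true] at hok
    have h1 := hc hok.1 s
    have h2 := hd hok.2 (c.eval s)
    simp only [Cmd.eval, Cmd.time]
    omega
  | ite r c0 c1 c2 h0 h1 h2 =>
    simp only [Cmd.ok, Bool.and_eq_true] at hok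
    rcases hs : s r with _ | ⟨_ | _, l⟩
    · simp only [Cmd.eval, Cmd.time, hs]; have := h0 hok.1.1 s; omega
    · simp only [Cmd.eval, Cmd.time, hs]; have := h1 hok.1.2 s; omega
    · simp only [Cmd.eval, Cmd.time, hs]; have := h2 hok.2 s; omega
  | loop r c0 c1 h0 h1 =>
    simp only [Cmd.ok, Bool.and_eq_true, Bool.not_eq_true'] at hok
    obtain ⟨⟨⟨w0, w1⟩, ok0⟩, ok1⟩ := hok
    simp only [Cmd.eval, Cmd.time]
    refine loopEval_len (fun b s => ?_) _ _ rfl (fun b s => ?_)
    · cases b
      · simpa using h0 ok0 s
      · simpa using h1 ok1 s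
    · cases b
      · simpa using Cmd.frame w0 s
      · simpa using Cmd.frame w1 s

/-! ### clearing -/

/-- clear the registers in a list -/
def clearL : List ℕ → Cmd
  | [] => .nop
  | r :: l => .seq (.clear r) (clearL l)

theorem eval_clearL (l : List ℕ) (s : St) (r : ℕ) :
    (clearL l).eval s r = if r ∈ l then [] else s r := by
  induction l generalizing s with
  | nil => simp [clearL]
  | cons a l ih =>
    rw [clearL, Cmd.eval_seq, Cmd.eval_clear, ih]
    by_cases h : r ∈ l
    · simp [h]
    · by_cases h' : r = a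
      · subst h'; simp
      · simp [h, h']

theorem LB_clearL {l : List ℕ} {L : ℕ} {s : St} (h : ∀ r, (s r).length ≤ L) :
    (clearL l).LB L s := by
  induction l generalizing s with
  | nil => trivial
  | cons a l ih =>
    refine ⟨Cmd.LB_clear (h a), ih fun r => ?_⟩
    rw [Cmd.eval_clear]
    by_cases h' : r = a
    · subst h'; simp
    · rw [update_of_ne h']; exact h r

theorem ok_clearL (l : List ℕ) : (clearL l).ok = true := by
  induction l with
  | nil => rfl
  | cons a l ih => simp [clearL, Cmd.ok, ih]

theorem bd_clearL {l : List ℕ} {k : ℕ} (hk : 0 < k) (h : ∀ r ∈ l, r < k) : (clearL l).bd ≤ k := by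
  induction l with
  | nil => show 1 ≤ k; omega
  | cons a l ih =>
    have h1 := h a (by simp)
    have h2 := ih fun r hr => h r (by simp [hr])
    simp only [clearL, Cmd.clear, Cmd.bd]
    omega

/-- run `c` and clear all registers below `k` except for `o` -/
def fin (c : Cmd) (k o : ℕ) : Cmd := .seq c (clearL ((List.range k).filter (· ≠ o)))

theorem outputs_aux (c : Cmd) (hok : c.ok = true) (o : ℕ) :
    ∃ (M : TM2ComputableAux Bool Bool) (f : ℕ → ℕ), PB f ∧ Monotone f ∧
      (∃ h : (M.tm.Γ M.tm.k₀ = Bool ∧ M.tm.Γ M.tm.k₁ = Bool), M.inputAlphabet = Equiv.cast h.1 ∧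
        M.outputAlphabet = Equiv.cast h.2) ∧
      ∀ y L, c.LB L (initSt 0 y) → Outputs M y (c.eval (initSt 0 y) o) (f (y.length + L)) := by
  set k := max c.bd (o + 1) with hk
  have hkpos : 0 < k := by omega
  set cl := clearL ((List.range k).filter (· ≠ o)) with hcl
  set c' := fin c k o with hc'
  have hok' : c'.ok = true := by
    rw [hc', fin]; simp [Cmd.ok, hok, ok_clearL]
  have hclbd : cl.bd ≤ k := bd_clearL hkpos fun r hr => by
    have := (List.mem_filter.1 hr).1; simpa using this
  have hbd' : c'.bd ≤ k := by
    rw [hc', fin]; simp only [Cmd.bd]; rw [← hcl]; omega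
  let M : TM2ComputableAux Bool Bool :=
    { tm := flatTM (c'.comp 0 c'.size) k ⟨0, hkpos⟩ ⟨o, by omega⟩
      inputAlphabet := Equiv.cast rfl
      outputAlphabet := Equiv.cast rfl }
  refine ⟨M, fun n => c.tb n + cl.tb (n + c.tb n) + 1, ?_, ?_, ⟨⟨rfl, rfl⟩, rfl, rfl⟩, ?_⟩
  · exact ((PB.tb c).add ((PB.tb cl).comp (PB.id.add (PB.tb c)))).add (PB.const 1)
  · intro a b hab
    have h1 := c.tb_mono hab
    have h2 := cl.tb_mono (show a + c.tb a ≤ b + c.tb b by omega)
    show c.tb a + cl.tb (a + c.tb a) + 1 ≤ c.tb b + cl.tb (b + c.tb b) + 1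
    omega
  · intro y L hL
    have t1 : c.time (initSt 0 y) ≤ c.tb (y.length + L) :=
      (Cmd.time_le_tb hL).trans (c.tb_mono (by omega))
    have hlen : ∀ r, (c.eval (initSt 0 y) r).length ≤ (y.length + L) + c.tb (y.length + L) := by
      intro r
      have h1 := len_le_time hok (initSt 0 y) r
      have h2 : (initSt 0 y r).length ≤ y.length := by
        unfold initSt; split <;> simp
      omega
    have t2 : cl.time (c.eval (initSt 0 y)) ≤ cl.tb ((y.length + L) + c.tb (y.length + L)) :=
      Cmd.time_le_tb (LB_clearL hlen)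
    have ht : c'.time (initSt 0 y) ≤ c.tb (y.length + L) +
        cl.tb ((y.length + L) + c.tb (y.length + L)) := by
      show c.time _ + cl.time _ ≤ _
      omega
    have hev : ∀ r < k, c'.eval (initSt 0 y) r = if r = o then c.eval (initSt 0 y) o else [] := by
      intro r hr
      show cl.eval (c.eval (initSt 0 y)) r = _
      rw [hcl, eval_clearL]
      by_cases h : r = o
      · subst h; simp
      · have : r ∈ (List.range k).filter (· ≠ o) := by simp [hr, h]
        rw [if_pos this, if_neg h]
    have key := flat_outputs hok' hbd' (⟨0, hkpos⟩ : Fin k) (⟨o, by omega⟩ : Fin k) y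
      (c.eval (initSt 0 y) o) _ ht hev
    have e1 : y.map M.inputAlphabet.invFun = y := List.map_id y
    have e2 : (c.eval (initSt 0 y) o).map M.outputAlphabet.invFun = c.eval (initSt 0 y) o :=
      List.map_id _
    unfold Outputs
    rw [e1, e2]
    exact key

/-- A program is carried out by a machine with polynomial overhead. -/
theorem outputs_of_cmd (c : Cmd) (hok : c.ok = true) (o : ℕ) :
    ∃ (M : TM2ComputableAux Bool Bool) (f : ℕ → ℕ), PB f ∧ Monotone f ∧
      ∀ y L, c.LB L (initSt 0 y) → Outputs M y (c.eval (initSt 0 y) o) (f (y.length + L)) := by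
  obtain ⟨M, f, h1, h2, -, h3⟩ := outputs_aux c hok o
  exact ⟨M, f, h1, h2, h3⟩

/-- convert the flag `[true]`/`[]` in register `o` to the code of a truth value -/
def flag (o : ℕ) : Cmd := .ite o (.push o false) .nop .nop

theorem polyTime_of_cmd {α : Type} (ea : α → List Bool) (χ : α → Bool) (c : Cmd)
    (hok : c.ok = true) (o : ℕ) (T : ℕ → ℕ) (hT : PB T)
    (h : ∀ a, c.LB (T (ea a).length) (initSt 0 (ea a)) ∧
      c.eval (initSt 0 (ea a)) o = if χ a then [true] else []) :
    Nonempty (TM2ComputableInPolyTime ea encodeBool χ) := by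
  obtain ⟨M, f, hf, hmono, -, hM⟩ := outputs_aux (.seq c (flag o)) (by
    simp [Cmd.ok, hok, flag]) o
  obtain ⟨a, d, had⟩ := hf.comp (PB.id.add hT)
  refine ⟨{ toTM2ComputableAux := M
            time := Polynomial.C a * (Polynomial.X + 1) ^ d
            outputsFun := fun x => ?_ }⟩
  obtain ⟨h1, h2⟩ := h x
  have h3 : (Cmd.seq c (flag o)).LB (T (ea x).length) (initSt 0 (ea x)) := by
    refine ⟨h1, ?_⟩
    simp only [flag, Cmd.LB]
    split <;> trivial
  have h4 : (Cmd.seq c (flag o)).eval (initSt 0 (ea x)) o = encodeBool (χ x) := by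
    show (flag o).eval (c.eval (initSt 0 (ea x))) o = _
    generalize c.eval (initSt 0 (ea x)) = s at h2
    cases hx : χ x
    · rw [hx] at h2
      simp [flag, Cmd.eval, h2, encodeBool]
    · rw [hx] at h2
      simp [flag, Cmd.eval, h2, encodeBool]
  have h5 := hM (ea x) _ h3
  rw [h4] at h5
  refine Classical.choice ?_
  obtain ⟨h6⟩ := h5
  refine ⟨⟨h6.toEvalsTo, h6.steps_le_m.trans ?_⟩⟩
  have := had (ea x).length
  simp only [Polynomial.eval_mul, Polynomial.eval_C, Polynomial.eval_pow, Polynomial.eval_add,
    Polynomial.eval_X, Polynomial.eval_one]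
  exact this

/-- Languages decided by a program with polynomial loop bounds are in P. -/
theorem inP_of_cmd {S : Set (List Bool)} (c : Cmd) (hok : c.ok = true) (o : ℕ) (T : ℕ → ℕ)
    (hT : PB T) (χ : List Bool → Bool) (hχ : ∀ x, χ x = true ↔ x ∈ S)
    (h : ∀ x, c.LB (T x.length) (initSt 0 x) ∧
      c.eval (initSt 0 x) o = if χ x then [true] else []) : InP S :=
  ⟨χ, hχ, polyTime_of_cmd id χ c hok o T hT h⟩

/-! ### decoding pairs -/

/-- the state with `z` in register 0 and `w` in register 1 -/
def init2 (z w : List Bool) : St := fun r => if r = 0 then z else if r = 1 then w else []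

/-- one letter of the code of a pair; registers: `A` pending letter, `M` mode,
`Z` first word (reversed), `W` second word (reversed) -/
def decB (A M Z W : ℕ) (b : Bool) : Cmd :=
  .ite M
    (.ite A (.push A b)
      (if b then .seq (.pop A) (.push M true) else .seq (.pop A) (.push Z false))
      (if b then .seq (.pop A) (.push Z true) else .nop))
    (.push W b) (.push W b)

section

variable (A : ℕ)

/-- intermediate states -/
def decS (x a m z w : List Bool) : St := fun r =>
  if r = 0 then x else if r = A then a else if r = A + 1 then m else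
    if r = A + 2 then z else if r = A + 3 then w else []

theorem decS_zero (x a m z w : List Bool) : decS A x a m z w 0 = x := rfl

variable {A}

theorem decS_A (hA : 1 < A) (x a m z w : List Bool) : decS A x a m z w A = a := by
  simp [decS]; omega

theorem decS_M (_ : 1 < A) (x a m z w : List Bool) : decS A x a m z w (A + 1) = m := by
  simp [decS]

theorem decS_Z (_ : 1 < A) (x a m z w : List Bool) : decS A x a m z w (A + 2) = z := by
  simp [decS]

theorem decS_W (_ : 1 < A) (x a m z w : List Bool) : decS A x a m z w (A + 3) = w := by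
  simp [decS]

theorem decS_upd0 (x x' a m z w : List Bool) :
    update (decS A x a m z w) 0 x' = decS A x' a m z w := by
  funext r
  by_cases h0 : r = 0
  · subst h0; simp [decS]
  · simp [decS, h0]

theorem decS_updA (hA : 1 < A) (x a a' m z w : List Bool) :
    update (decS A x a m z w) A a' = decS A x a' m z w := by
  funext r
  by_cases h0 : r = A
  · subst h0; simp [decS]; omega
  · simp [decS, h0]

theorem decS_updM (_ : 1 < A) (x a m m' z w : List Bool) :
    update (decS A x a m z w) (A + 1) m' = decS A x a m' z w := by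
  funext r
  by_cases h0 : r = A + 1
  · subst h0; simp [decS]
  · simp [decS, h0]

theorem decS_updZ (_ : 1 < A) (x a m z z' w : List Bool) :
    update (decS A x a m z w) (A + 2) z' = decS A x a m z' w := by
  funext r
  by_cases h0 : r = A + 2
  · subst h0; simp [decS]
  · simp [decS, h0]

theorem decS_updW (_ : 1 < A) (x a m z w w' : List Bool) :
    update (decS A x a m z w) (A + 3) w' = decS A x a m z w' := by
  funext r
  by_cases h0 : r = A + 3
  · subst h0; simp [decS]
  · simp [decS, h0]

/-- the loop decoding a pair -/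
def decF (A : ℕ) : Bool → St → St := fun b =>
  if b then (decB A (A + 1) (A + 2) (A + 3) true).eval
  else (decB A (A + 1) (A + 2) (A + 3) false).eval

theorem decF_1 (hA : 1 < A) (b : Bool) (x z w : List Bool) :
    decF A b (decS A x [] [] z w) = decS A x [b] [] z w := by
  cases b <;>
  simp [decF, decB, Cmd.eval, decS_M hA, decS_A hA, decS_updA hA]

theorem decF_2 (hA : 1 < A) (b : Bool) (x z w : List Bool) :
    decF A b (decS A x [b] [] z w) = decS A x [] [] (b :: z) w := by
  cases b <;>
  simp [decF, decB, Cmd.eval, decS_M hA, decS_A hA, decS_updA hA, decS_Z hA, decS_updZ hA]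

theorem decF_3 (hA : 1 < A) (x z w : List Bool) :
    decF A true (decS A x [false] [] z w) = decS A x [] [true] z w := by
  simp [decF, decB, Cmd.eval, decS_M hA, decS_A hA, decS_updA hA, decS_updM hA]

theorem decF_4 (hA : 1 < A) (b : Bool) (x a z w : List Bool) :
    decF A b (decS A x a [true] z w) = decS A x a [true] z (b :: w) := by
  cases b <;>
  simp [decF, decB, Cmd.eval, decS_M hA, decS_W hA, decS_updW hA]

theorem dec_loop2 (hA : 1 < A) (z : List Bool) : ∀ (w x w' : List Bool),
    loopEval (decF A) 0 w (decS A x [] [true] z w') = 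
      decS A (if w = [] then x else []) [] [true] z (w.reverse ++ w')
  | [], x, w' => by simp [loopEval]
  | b :: w, x, w' => by
    rw [loopEval, decS_upd0, decF_4 hA, dec_loop2 hA z w w (b :: w')]
    simp
    congr 1
    split <;> simp_all

theorem dec_loop1 (hA : 1 < A) (w : List Bool) : ∀ (z x z' : List Bool),
    loopEval (decF A) 0 (z.flatMap (fun b => [b, b]) ++ ([false, true] ++ w))
      (decS A x [] [] z' []) = decS A [] [] [true] (z.reverse ++ z') w.reverse
  | [], x, z' => by
    simp only [List.flatMap_nil, List.nil_append, List.cons_append, loopEval]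
    rw [decS_upd0, decF_1 hA, decS_upd0, decF_3 hA, dec_loop2 hA]
    simp
    congr 1
    split <;> simp_all
  | b :: z, x, z' => by
    simp only [List.flatMap_cons, List.cons_append, List.nil_append, loopEval]
    rw [decS_upd0, decF_1 hA, decS_upd0, decF_2 hA]
    have := dec_loop1 hA w z (z.flatMap (fun b => [b, b]) ++ false :: true :: w) (b :: z')
    simp only [List.cons_append, List.nil_append] at this
    rw [this]
    simp

theorem dec_LB (A L : ℕ) : ∀ (l : List Bool) (s : St),
    loopLB (decF A) (fun b => if b then (decB A (A + 1) (A + 2) (A + 3) true).LB L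
      else (decB A (A + 1) (A + 2) (A + 3) false).LB L) 0 l s
  | [], _ => trivial
  | b :: l, s => by
    refine ⟨?_, dec_LB A L l _⟩
    cases b
    · simp only [decB, Cmd.LB, Bool.false_eq_true, if_false]
      split <;> (try split) <;> simp
    · simp only [decB, Cmd.LB, if_true]
      split <;> (try split) <;> simp

/-- decode a pair -/
def dec (A : ℕ) : Cmd :=
  .seq (.loop 0 (decB A (A + 1) (A + 2) (A + 3) false) (decB A (A + 1) (A + 2) (A + 3) true))
    (.seq (.pop (A + 1)) (.seq (.mv (A + 2) 0) (.mv (A + 3) 1)))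

theorem ok_dec (hA : 1 < A) : (dec A).ok = true := by
  have h1 : (Cmd.mv (A + 2) 0).ok = true := Cmd.ok_mv.2 (by omega)
  have h2 : (Cmd.mv (A + 3) 1).ok = true := Cmd.ok_mv.2 (by omega)
  have h3 : A ≠ 0 := by omega
  simp [dec, Cmd.ok, h1, h2, decB, Cmd.wr, h3.symm]

theorem eval_dec (hA : 1 < A) (z w : List Bool) :
    (dec A).eval (initSt 0 (pairCode (z, w))) = init2 z w := by
  have h0 : initSt 0 (pairCode (z, w)) = decS A (pairCode (z, w)) [] [] [] [] := by
    funext r
    by_cases h0 : r = 0
    · subst h0; simp [decS, initSt]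
    · simp [decS, initSt, h0]
  have h1 := dec_loop1 hA w z (pairCode (z, w)) []
  rw [List.append_nil] at h1
  have h2 : (Cmd.loop 0 (decB A (A + 1) (A + 2) (A + 3) false)
      (decB A (A + 1) (A + 2) (A + 3) true)).eval (initSt 0 (pairCode (z, w))) =
      decS A [] [] [true] z.reverse w.reverse := by
    rw [h0]; exact h1
  rw [dec, Cmd.eval_seq, h2, Cmd.eval_seq, Cmd.eval_pop, decS_M hA, decS_updM hA, Cmd.eval_seq,
    Cmd.eval_mv (show A + 2 ≠ 0 by omega), decS_Z hA, decS_updZ hA, decS_upd0, decS_zero,
    List.reverse_reverse, Cmd.eval_mv (show A + 3 ≠ 1 by omega), decS_W hA, decS_updW hA,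
    List.reverse_reverse]
  have h3 : decS A (z ++ []) [] [true].tail [] w.reverse 1 = [] := by
    have : 1 ≠ A := by omega
    simp [decS, this]
  rw [h3]
  funext r
  by_cases h4 : r = 1
  · subst h4; simp [init2]
  · by_cases h5 : r = 0
    · subst h5; simp [init2, decS]
    · simp [h4, init2, decS, h5]

theorem LB_dec (hA : 1 < A) (z w : List Bool) :
    (dec A).LB (pairCode (z, w)).length (initSt 0 (pairCode (z, w))) := by
  have h0 : initSt 0 (pairCode (z, w)) = decS A (pairCode (z, w)) [] [] [] [] := by
    funext r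
    by_cases h0 : r = 0
    · subst h0; simp [decS, initSt]
    · simp [decS, initSt, h0]
  have h1 := dec_loop1 hA w z (pairCode (z, w)) []
  rw [List.append_nil] at h1
  have h2 : (Cmd.loop 0 (decB A (A + 1) (A + 2) (A + 3) false)
      (decB A (A + 1) (A + 2) (A + 3) true)).eval (initSt 0 (pairCode (z, w))) =
      decS A [] [] [true] z.reverse w.reverse := by
    rw [h0]; exact h1
  have hlen : (pairCode (z, w)).length = 2 * z.length + 2 + w.length := by
    simp [pairCode, List.length_flatMap, mul_comm]
    ring
  refine ⟨⟨by simp [initSt], dec_LB A _ _ _⟩, trivial, ?_⟩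
  rw [h2, Cmd.eval_pop, decS_M hA, decS_updM hA]
  refine ⟨Cmd.LB_mv (by omega) ?_, Cmd.LB_mv (by omega) ?_⟩
  · rw [decS_Z hA, hlen, List.length_reverse]; omega
  · rw [Cmd.eval_mv (by omega), decS_Z hA, decS_updZ hA, decS_upd0, decS_W hA, hlen,
      List.length_reverse]
    omega

end

/-- Languages with certificates checked by a program with polynomial loop bounds are in NP. -/
theorem inNP_of_cmd {S : Set (List Bool)} (c : Cmd) (hok : c.ok = true) (o : ℕ) (T : ℕ → ℕ)
    (hT : PB T) (hTm : Monotone T) (q : Polynomial ℕ) (R : List Bool → List Bool → Bool)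
    (h : ∀ z w, c.LB (T (z.length + w.length)) (init2 z w) ∧
      c.eval (init2 z w) o = if R z w then [true] else [])
    (hS : ∀ z, z ∈ S ↔ ∃ w : List Bool, w.length ≤ q.eval z.length ∧ R z w = true) : InNP S := by
  refine ⟨q, fun p => R p.1 p.2, ?_, hS⟩
  refine polyTime_of_cmd pairCode _ (.seq (dec 2) c) (by simp [Cmd.ok, ok_dec, hok]) o
    (fun n => n + T n) (PB.id.add hT) ?_
  rintro ⟨z, w⟩
  obtain ⟨h1, h2⟩ := h z w
  have hlen : (pairCode (z, w)).length = 2 * z.length + 2 + w.length := by
    simp [pairCode, List.length_flatMap, mul_comm]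
    ring
  refine ⟨⟨(LB_dec (by norm_num) z w).mono (by omega), ?_⟩, ?_⟩
  · rw [eval_dec (by norm_num)]
    refine h1.mono ?_
    have := hTm (show z.length + w.length ≤ (pairCode (z, w)).length by omega)
    omega
  · rw [Cmd.eval_seq, eval_dec (by norm_num), h2]

end Pool.Agent.Helper4.Glue
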