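import Mathlib
open Filter Topology Finset ArithmeticFunction
open scoped ArithmeticFunction.Moebius ArithmeticFunction.zeta

namespace Pool.Agent.Helper4.DE

/-- the arithmetic function n ^ (-δ) -/
noncomputable def g (δ : ℝ) : ArithmeticFunction ℝ :=
  ⟨fun n => if n = 0 then 0 else (n : ℝ) ^ (-δ), by simp⟩

lemma g_apply {δ : ℝ} {n : ℕ} (hn : n ≠ 0) : g δ n = (n : ℝ) ^ (-δ) := by
  simp [g, hn]

lemma g_nonneg (δ : ℝ) (n : ℕ) : 0 ≤ g δ n := by
  by_cases hn : n = 0
  · simp [hn]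
  · rw [g_apply hn]; positivity

lemma g_mul {δ : ℝ} (m n : ℕ) : g δ (m * n) = g δ m * g δ n := by
  by_cases hm : m = 0
  · simp [hm]
  by_cases hn : n = 0
  · simp [hn]
  rw [g_apply hm, g_apply hn, g_apply (mul_ne_zero hm hn)]
  push_cast
  rw [Real.mul_rpow (by positivity) (by positivity)]

lemma g_one (δ : ℝ) : g δ 1 = 1 := by simp [g]

lemma g_mult (δ : ℝ) : (g δ).IsMultiplicative :=
  ⟨g_one δ, fun {m n} _ => g_mul m n⟩

/-- the Dirichlet inverse of g -/
noncomputable def gi (δ : ℝ) : ArithmeticFunction ℝ := pmul (μ : ArithmeticFunction ℝ) (g δ)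

lemma g_mul_gi (δ : ℝ) : g δ * gi δ = 1 := by
  ext n
  by_cases hn : n = 0
  · simp [hn]
  rw [ArithmeticFunction.mul_apply]
  have h1 : ∀ p ∈ n.divisorsAntidiagonal, g δ p.1 * gi δ p.2 = g δ n * (μ : ArithmeticFunction ℝ) p.2 := by
    intro p hp
    rw [Nat.mem_divisorsAntidiagonal] at hp
    rw [gi, pmul_apply, ← hp.1, g_mul]; ring
  rw [Finset.sum_congr rfl h1, ← Finset.mul_sum]
  have h2 : ∑ p ∈ n.divisorsAntidiagonal, (μ : ArithmeticFunction ℝ) p.2 = ((ζ : ArithmeticFunction ℝ) * (μ : ArithmeticFunction ℝ)) n := by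
    rw [ArithmeticFunction.mul_apply]
    apply Finset.sum_congr rfl
    intro p hp
    have hp' := hp
    rw [Nat.mem_divisorsAntidiagonal] at hp
    have : p.1 ≠ 0 := by
      intro h; apply hp.2; rw [← hp.1, h, zero_mul]
    simp [natCoe_apply, zeta_apply_ne this]
  rw [h2, coe_zeta_mul_coe_moebius]
  by_cases h1 : n = 1
  · simp [h1, g_one]
  · simp [ArithmeticFunction.one_apply_ne h1]

/-- h = ζ * gi, nonnegative, and g * h = ζ -/
noncomputable def h (δ : ℝ) : ArithmeticFunction ℝ := gi δ * (ζ : ArithmeticFunction ℝ)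

lemma g_mul_h (δ : ℝ) : g δ * h δ = (ζ : ArithmeticFunction ℝ) := by
  rw [h, ← mul_assoc, g_mul_gi, one_mul]

lemma h_mult (δ : ℝ) : (h δ).IsMultiplicative := by
  unfold h gi
  exact ((isMultiplicative_moebius.intCast (R := ℝ)).pmul (g_mult δ)).mul isMultiplicative_zeta.natCast

lemma h_prime_pow (δ : ℝ) {p k : ℕ} (hp : p.Prime) (hk : k ≠ 0) : h δ (p ^ k) = 1 - g δ p := by
  rw [h, mul_comm, coe_zeta_mul_apply]
  rw [Nat.sum_divisors_prime_pow hp]
  obtain ⟨k, rfl⟩ := Nat.exists_eq_succ_of_ne_zero hk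
  rw [Finset.sum_range_succ', Finset.sum_range_succ']
  have : ∑ k ∈ range k, gi δ (p ^ (k + 1 + 1)) = 0 := by
    apply Finset.sum_eq_zero
    intro i _
    have : μ (p ^ (i + 1 + 1)) = 0 := by
      rw [moebius_apply_prime_pow hp (by omega)]
      simp
    simp [gi, pmul_apply, this]
  rw [this]
  simp [gi, pmul_apply, moebius_apply_prime hp, g_one]
  ring

lemma h_nonneg {δ : ℝ} (hδ : 0 ≤ δ) (n : ℕ) : 0 ≤ h δ n := by
  by_cases hn : n = 0
  · simp [hn]
  rw [(h_mult δ).multiplicative_factorization _ hn]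
  apply Finset.prod_nonneg
  intro p hp
  have hk : n.factorization p ≠ 0 := Finsupp.mem_support_iff.mp hp
  have hpp : p.Prime := by
    rw [Nat.support_factorization] at hp
    exact Nat.prime_of_mem_primeFactors hp
  show 0 ≤ h δ (p ^ n.factorization p)
  rw [h_prime_pow δ hpp hk, g_apply hpp.ne_zero]
  have : (p : ℝ) ^ (-δ) ≤ 1 := by
    apply Real.rpow_le_one_of_one_le_of_nonpos
    · exact_mod_cast hpp.one_lt.le
    · linarith
  linarith

end Pool.Agent.Helper4.DE
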