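import Pool.Agent.Helper4.DE1
open Filter Topology Finset ArithmeticFunction
open scoped ArithmeticFunction.Moebius ArithmeticFunction.zeta

namespace Pool.Agent.Helper4.DE

/-- partial sums of h -/
noncomputable def H (δ : ℝ) (y : ℕ) : ℝ := ∑ b ∈ Ioc 0 y, h δ b

lemma H_eq (δ : ℝ) (y : ℕ) : H δ y = ∑ d ∈ Ioc 0 y, gi δ d * ((y / d : ℕ) : ℝ) := by
  unfold H h
  exact sum_Ioc_mul_zeta_eq_sum (gi δ) y

/-- the mean value of h -/
noncomputable def c (δ : ℝ) : ℝ := ∑' d : ℕ, gi δ d / d

lemma abs_gi_le (δ : ℝ) (d : ℕ) : |gi δ d| ≤ g δ d := by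
  rw [gi, pmul_apply, abs_mul, abs_of_nonneg (g_nonneg δ d)]
  have : |((μ : ArithmeticFunction ℝ) d)| ≤ 1 := by
    have := abs_moebius_le_one (n := d)
    rw [intCoe_apply]
    exact_mod_cast this
  have h0 := g_nonneg δ d
  nlinarith

lemma g_div {δ : ℝ} (hδ : 0 < δ) (d : ℕ) : g δ d / d = ((d : ℝ) ^ (1 + δ))⁻¹ := by
  by_cases hd : d = 0
  · subst hd
    have h1 : 1 + δ ≠ 0 := by linarith
    simp [Real.zero_rpow h1]
  · rw [g_apply hd, Real.rpow_neg (by positivity), Real.rpow_add (by positivity), Real.rpow_one]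
    field_simp

lemma summable_g_div {δ : ℝ} (hδ : 0 < δ) : Summable (fun d : ℕ => g δ d / d) := by
  simp_rw [g_div hδ]
  exact Real.summable_nat_rpow_inv.mpr (by linarith)

lemma tendsto_H_div {δ : ℝ} (hδ : 0 < δ) :
    Tendsto (fun y : ℕ => H δ y / y) atTop (𝓝 (c δ)) := by
  have key : ∀ y : ℕ, H δ y / y = ∑' d : ℕ, (if d ∈ Ioc 0 y then gi δ d * ((y / d : ℕ) : ℝ) / y else 0) := by
    intro y
    rw [H_eq, Finset.sum_div, tsum_eq_sum (s := Ioc 0 y)]
    · apply Finset.sum_congr rfl
      intro d hd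
      simp [hd]
    · intro d hd
      simp only [hd, if_false]
  simp_rw [key]
  unfold c
  apply tendsto_tsum_of_dominated_convergence (summable_g_div hδ)
  · intro d
    by_cases hd : d = 0
    · subst hd; simp
    have hd' : 0 < d := Nat.pos_of_ne_zero hd
    have h1 : Tendsto (fun y : ℕ => ((y / d : ℕ) : ℝ) / y) atTop (𝓝 (1 / d)) := by
      have h2 := tendsto_nat_floor_mul_div_atTop (R := ℝ) (a := 1 / d) (by positivity)
      have h3 := h2.comp tendsto_natCast_atTop_atTop
      refine h3.congr ?_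
      intro y
      simp only [Function.comp]
      congr 2
      rw [one_div, inv_mul_eq_div, Nat.floor_div_natCast, Nat.floor_natCast]
    have h2 : Tendsto (fun y : ℕ => gi δ d * (((y / d : ℕ) : ℝ) / y)) atTop (𝓝 (gi δ d * (1 / d))) :=
      h1.const_mul _
    have h3 : gi δ d / d = gi δ d * (1 / d) := by ring
    rw [h3]
    refine h2.congr' ?_
    filter_upwards [eventually_ge_atTop d] with y hy
    have : d ∈ Ioc 0 y := by simp [hd', hy]
    simp only [this, if_true]
    ring
  · filter_upwards with y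
    intro d
    split_ifs with hd
    · rw [Real.norm_eq_abs, abs_div, abs_mul]
      rw [Finset.mem_Ioc] at hd
      have hy : (0:ℝ) < y := by exact_mod_cast (lt_of_lt_of_le hd.1 hd.2)
      have hd0 : (0:ℝ) < d := by exact_mod_cast hd.1
      rw [abs_of_pos hy, div_le_div_iff₀ hy hd0]
      have h1 : |((y / d : ℕ) : ℝ)| * d ≤ y := by
        rw [abs_of_nonneg (by positivity)]
        have := Nat.div_mul_le_self y d
        exact_mod_cast this
      have h2 := abs_gi_le δ d
      calc |gi δ d| * |((y / d : ℕ) : ℝ)| * d = |gi δ d| * (|((y / d : ℕ) : ℝ)| * d) := by ring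
        _ ≤ g δ d * y := by
          apply mul_le_mul h2 h1 (by positivity) (g_nonneg δ d)
    · simp only [norm_zero]
      exact div_nonneg (g_nonneg δ d) (by positivity)

/-- counting function of a set of positive integers -/
noncomputable def C (S : Set ℕ) (x : ℕ) : ℝ := by
  classical exact (((Ioc 0 x).filter (· ∈ S)).card : ℝ)

/-- closed under multiples -/
def IsMultClosed (S : Set ℕ) : Prop := ∀ a ∈ S, ∀ b, 0 < b → a * b ∈ S

open Classical in
/-- g restricted to S -/
noncomputable def gS (δ : ℝ) (S : Set ℕ) : ArithmeticFunction ℝ :=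
  ⟨fun n => if n ∈ S then g δ n else 0, by simp⟩

lemma gS_nonneg (δ : ℝ) (S : Set ℕ) (n : ℕ) : 0 ≤ gS δ S n := by
  classical
  simp only [gS, coe_mk]
  split_ifs
  · exact g_nonneg δ n
  · exact le_rfl

lemma C_ge {δ : ℝ} (hδ : 0 < δ) {S : Set ℕ} (hS : IsMultClosed S) (x : ℕ) (K : ℕ) (hK : K ≤ x) :
    ∑ a ∈ Ioc 0 K, gS δ S a * H δ (x / a) ≤ C S x := by
  classical
  have h1 : C S x = ∑ n ∈ Ioc 0 x, if n ∈ S then (g δ * h δ) n else 0 := by
    unfold C
    rw [Finset.card_filter]
    push_cast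
    apply Finset.sum_congr rfl
    intro n hn
    rw [Finset.mem_Ioc] at hn
    rw [g_mul_h, natCoe_apply, zeta_apply_ne (by omega)]
    simp
  have h2 : ∑ n ∈ Ioc 0 x, (gS δ S * h δ) n ≤ C S x := by
    rw [h1]
    apply Finset.sum_le_sum
    intro n hn
    rw [Finset.mem_Ioc] at hn
    split_ifs with hnS
    · rw [ArithmeticFunction.mul_apply, ArithmeticFunction.mul_apply]
      apply Finset.sum_le_sum
      intro p _
      apply mul_le_mul_of_nonneg_right _ (h_nonneg hδ.le _)
      simp only [gS, coe_mk]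
      split_ifs
      · exact le_rfl
      · exact g_nonneg δ _
    · rw [ArithmeticFunction.mul_apply]
      apply le_of_eq
      apply Finset.sum_eq_zero
      intro p hp
      rw [Nat.mem_divisorsAntidiagonal] at hp
      have : p.1 ∉ S := by
        intro hp1
        apply hnS
        rw [← hp.1]
        apply hS _ hp1
        apply Nat.pos_of_ne_zero
        intro h0; apply hp.2; rw [← hp.1, h0, mul_zero]
      simp [gS, this]
  refine le_trans ?_ h2
  rw [sum_Ioc_mul_eq_sum_sum]
  apply Finset.sum_le_sum_of_subset_of_nonneg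
  · intro a ha
    rw [Finset.mem_Ioc] at ha ⊢
    omega
  · intro a _ _
    apply mul_nonneg (gS_nonneg δ S a)
    apply Finset.sum_nonneg
    intro b _
    exact h_nonneg hδ.le b

/-- the Dirichlet sum over S -/
noncomputable def D (S : Set ℕ) (δ : ℝ) : ℝ := ∑' a : ℕ, gS δ S a / a

lemma summable_gS_div {δ : ℝ} (hδ : 0 < δ) (S : Set ℕ) : Summable (fun d : ℕ => gS δ S d / d) := by
  classical
  apply Summable.of_nonneg_of_le _ _ (summable_g_div hδ)
  · intro d; exact div_nonneg (gS_nonneg δ S d) (by positivity)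
  · intro d
    apply div_le_div_of_nonneg_right _ (by positivity)
    simp only [gS, coe_mk]
    split_ifs
    · exact le_rfl
    · exact g_nonneg δ d

/-- lower density of S is at least c(δ) D(S,δ) -/
lemma lower_density {δ : ℝ} (hδ : 0 < δ) {S : Set ℕ} (hS : IsMultClosed S) {t : ℝ}
    (ht : t < c δ * D S δ) : ∀ᶠ x : ℕ in atTop, t < C S x / x := by
  have h1 : Tendsto (fun K : ℕ => ∑ a ∈ Ioc 0 K, gS δ S a / a * c δ) atTop (𝓝 (D S δ * c δ)) := by
    have h2 := ((summable_gS_div hδ S).hasSum.mul_right (c δ)).tendsto_sum_nat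
    have h3 := (tendsto_add_atTop_iff_nat 1).mpr h2
    refine h3.congr ?_
    intro K
    symm
    apply Finset.sum_subset_zero_on_sdiff
    · intro a ha; rw [Finset.mem_Ioc] at ha; rw [Finset.mem_range]; omega
    · intro a ha
      rw [Finset.mem_sdiff, Finset.mem_range, Finset.mem_Ioc] at ha
      have : a = 0 := by omega
      subst this; simp
    · intros; rfl
  rw [mul_comm] at ht
  obtain ⟨K, hK⟩ := (h1.eventually (lt_mem_nhds ht)).exists
  have h4 : Tendsto (fun x : ℕ => ∑ a ∈ Ioc 0 K, gS δ S a * (H δ (x / a) / x)) atTop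
      (𝓝 (∑ a ∈ Ioc 0 K, gS δ S a / a * c δ)) := by
    apply tendsto_finsetSum
    intro a ha
    rw [Finset.mem_Ioc] at ha
    have ha0 : (0:ℝ) < a := by exact_mod_cast ha.1
    have h5 : Tendsto (fun x : ℕ => H δ (x / a) / ((x / a : ℕ) : ℝ)) atTop (𝓝 (c δ)) :=
      (tendsto_H_div hδ).comp (Nat.tendsto_div_const_atTop (by omega))
    have h6 : Tendsto (fun y : ℕ => ((y / a : ℕ) : ℝ) / y) atTop (𝓝 (1 / a)) := by
      have h2 := tendsto_nat_floor_mul_div_atTop (R := ℝ) (a := 1 / a) (by positivity)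
      have h3 := h2.comp tendsto_natCast_atTop_atTop
      refine h3.congr ?_
      intro y
      simp only [Function.comp]
      congr 2
      rw [one_div, inv_mul_eq_div, Nat.floor_div_natCast, Nat.floor_natCast]
    have h7 := (h5.mul h6).const_mul (gS δ S a)
    have h8 : gS δ S a / a * c δ = gS δ S a * (c δ * (1 / a)) := by field_simp
    rw [h8]
    refine h7.congr' ?_
    filter_upwards [eventually_ge_atTop a] with x hx
    have : ((x / a : ℕ) : ℝ) ≠ 0 := by
      have := Nat.div_pos hx ha.1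
      positivity
    have hx0 : (x : ℝ) ≠ 0 := by
      have : 0 < x := lt_of_lt_of_le ha.1 hx
      positivity
    field_simp
  filter_upwards [h4.eventually (lt_mem_nhds hK), eventually_ge_atTop K, eventually_gt_atTop 0] with x hx hxK hx0
  refine lt_of_lt_of_le hx ?_
  have := C_ge hδ hS x K hxK
  have hx0' : (0:ℝ) < x := by exact_mod_cast hx0
  rw [le_div_iff₀ hx0', Finset.sum_mul]
  refine le_trans (le_of_eq ?_) this
  apply Finset.sum_congr rfl
  intro a _
  field_simp

end Pool.Agent.Helper4.DE
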