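import Pool.Agent.Helper4.DE2
open Filter Topology Finset ArithmeticFunction
open scoped ArithmeticFunction.Moebius ArithmeticFunction.zeta

namespace Pool.Agent.Helper4.DE

/-- zeta at 1 + δ -/
noncomputable def Z (δ : ℝ) : ℝ := ∑' d : ℕ, g δ d / d

lemma Z_mul_c {δ : ℝ} (hδ : 0 < δ) : Z δ * c δ = 1 := by
  have hs : 1 < ((1 + δ : ℝ) : ℂ).re := by simp; exact hδ
  have key := LSeries_one_mul_Lseries_moebius hs
  have h1 : LSeries 1 ((1 + δ : ℝ) : ℂ) = ((Z δ : ℝ) : ℂ) := by
    unfold LSeries Z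
    rw [Complex.ofReal_tsum]
    congr 1
    ext d
    by_cases hd : d = 0
    · simp [hd]
    · rw [LSeries.term_of_ne_zero hd, g_div hδ]
      have := Complex.ofReal_cpow (x := (d : ℝ)) (by positivity) (1 + δ)
      push_cast at this ⊢
      rw [this]
      simp
  have h2 : LSeries (fun n => ((μ n : ℤ) : ℂ)) ((1 + δ : ℝ) : ℂ) = ((c δ : ℝ) : ℂ) := by
    unfold LSeries c
    rw [Complex.ofReal_tsum]
    congr 1
    ext d
    by_cases hd : d = 0
    · simp [hd]
    · rw [LSeries.term_of_ne_zero hd, gi, pmul_apply, mul_div_assoc, g_div hδ]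
      have := Complex.ofReal_cpow (x := (d : ℝ)) (by positivity) (1 + δ)
      push_cast at this ⊢
      rw [this]
      simp [intCoe_apply, div_eq_mul_inv]
  rw [h1, h2] at key
  exact_mod_cast key

lemma Z_nonneg (δ : ℝ) : 0 ≤ Z δ :=
  tsum_nonneg fun d => div_nonneg (g_nonneg δ d) (by positivity)

lemma c_pos {δ : ℝ} (hδ : 0 < δ) : 0 < c δ := by
  have h1 := Z_mul_c hδ
  have h2 := Z_nonneg δ
  by_contra h3
  push Not at h3
  nlinarith

lemma Z_tendsto : Tendsto (fun δ : ℝ => δ * Z δ) (𝓝[>] 0) (𝓝 1) := by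
  have h1 := tendsto_sub_mul_tsum_nat_rpow
  have h2 : Tendsto (fun δ : ℝ => 1 + δ) (𝓝[>] 0) (𝓝[>] 1) := by
    apply tendsto_nhdsWithin_iff.mpr
    constructor
    · have : Tendsto (fun δ : ℝ => 1 + δ) (𝓝 0) (𝓝 (1 + 0)) := tendsto_const_nhds.add tendsto_id
      simpa using this.mono_left nhdsWithin_le_nhds
    · filter_upwards [self_mem_nhdsWithin] with δ hδ
      simp only [Set.mem_Ioi] at *
      linarith
  have h3 := h1.comp h2
  refine h3.congr' ?_
  filter_upwards [self_mem_nhdsWithin] with δ hδ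
  simp only [Function.comp, add_sub_cancel_left]
  congr 1
  unfold Z
  congr 1
  ext d
  rw [g_div hδ, one_div]

/-- liminf of the counting ratio -/
noncomputable def t (S : Set ℕ) : ℝ := liminf (fun x : ℕ => C S x / x) atTop

lemma C_nonneg (S : Set ℕ) (x : ℕ) : 0 ≤ C S x := by unfold C; positivity

lemma C_le (S : Set ℕ) (x : ℕ) : C S x ≤ x := by
  classical
  unfold C
  have := Finset.card_filter_le (Ioc 0 x) (· ∈ S)
  simp only [Nat.card_Ioc, tsub_zero] at this
  exact_mod_cast this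

lemma ratio_le_one (S : Set ℕ) (x : ℕ) : C S x / x ≤ 1 := by
  by_cases hx : x = 0
  · simp [hx]
  · rw [div_le_one (by positivity)]; exact C_le S x

lemma ratio_nonneg (S : Set ℕ) (x : ℕ) : 0 ≤ C S x / x := div_nonneg (C_nonneg S x) (by positivity)

lemma bdd_below (S : Set ℕ) : IsBoundedUnder (· ≥ ·) atTop (fun x : ℕ => C S x / x) :=
  isBoundedUnder_of ⟨0, fun x => ratio_nonneg S x⟩

lemma cobdd (S : Set ℕ) : IsCoboundedUnder (· ≥ ·) atTop (fun x : ℕ => C S x / x) :=
  (isBoundedUnder_of ⟨1, fun x => ratio_le_one S x⟩ : IsBoundedUnder (· ≤ ·) atTop (fun x : ℕ => C S x / x)).isCoboundedUnder_ge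

lemma t_nonneg (S : Set ℕ) : 0 ≤ t S :=
  le_liminf_of_le (cobdd S) (Eventually.of_forall fun x => ratio_nonneg S x)

lemma eventually_gt (S : Set ℕ) {η : ℝ} (hη : 0 < η) : ∀ᶠ x : ℕ in atTop, t S - η < C S x / x :=
  eventually_lt_of_lt_liminf (by unfold t; linarith) (bdd_below S)

lemma t_le_one (S : Set ℕ) : t S ≤ 1 := by
  by_contra hcon
  push Not at hcon
  have := eventually_gt S (η := t S - 1) (by linarith)
  obtain ⟨x, hx⟩ := this.exists
  have := ratio_le_one S x
  linarith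

lemma D_le {δ : ℝ} (hδ : 0 < δ) {S : Set ℕ} (hS : IsMultClosed S) : D S δ ≤ t S * Z δ := by
  have h1 : c δ * D S δ ≤ t S := by
    apply le_of_forall_lt
    intro a ha
    obtain ⟨b, hab, hb⟩ := exists_between ha
    refine lt_of_lt_of_le hab ?_
    apply le_liminf_of_le (cobdd S)
    filter_upwards [lower_density hδ hS hb] with x hx
    exact hx.le
  have h2 := Z_mul_c hδ
  have h3 := c_pos hδ
  have h4 := Z_nonneg δ
  calc D S δ = Z δ * c δ * D S δ := by rw [h2, one_mul]
    _ = Z δ * (c δ * D S δ) := by ring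
    _ ≤ Z δ * t S := by gcongr
    _ = t S * Z δ := by ring

/-- u(n) = n^(-1-δ) -/
noncomputable def u (δ : ℝ) (n : ℕ) : ℝ := ((n : ℝ) ^ (1 + δ))⁻¹

lemma u_nonneg (δ : ℝ) (n : ℕ) : 0 ≤ u δ n := by unfold u; positivity

lemma u_anti {δ : ℝ} (hδ : 0 < δ) {n : ℕ} (hn : 0 < n) : u δ (n + 1) ≤ u δ n := by
  unfold u
  have : (0:ℝ) < n := by exact_mod_cast hn
  apply inv_anti₀ (by positivity)
  apply Real.rpow_le_rpow (by positivity) (by push_cast; linarith) (by linarith)

lemma C_succ (S : Set ℕ) (n : ℕ) [Decidable (n + 1 ∈ S)] : C S (n + 1) = C S n + if n + 1 ∈ S then 1 else 0 := by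
  classical
  unfold C
  have : Ioc 0 (n + 1) = insert (n + 1) (Ioc 0 n) := by
    ext k; simp only [Finset.mem_Ioc, Finset.mem_insert]; omega
  rw [this, Finset.filter_insert]
  split_ifs with h1
  · rw [Finset.card_insert_of_notMem]
    · push_cast; ring
    · simp
  · simp

open Classical in
lemma sum_by_parts (δ : ℝ) (S : Set ℕ) (N : ℕ) :
    ∑ n ∈ range N, C S (n + 1) * (u δ (n + 1) - u δ (n + 1 + 1)) + C S N * u δ (N + 1)
      = ∑ n ∈ range N, (if n + 1 ∈ S then u δ (n + 1) else 0) := by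
  induction N with
  | zero => simp [C]
  | succ N ih =>
    rw [Finset.sum_range_succ, Finset.sum_range_succ, ← ih, C_succ]
    split_ifs <;> ring

lemma tail_tendsto {δ : ℝ} (hδ : 0 < δ) (S : Set ℕ) :
    Tendsto (fun N : ℕ => C S N * u δ (N + 1)) atTop (𝓝 0) := by
  have h1 : Tendsto (fun N : ℕ => ((N : ℝ) ^ δ)⁻¹) atTop (𝓝 0) :=
    ((tendsto_rpow_atTop hδ).comp tendsto_natCast_atTop_atTop).inv_tendsto_atTop
  apply squeeze_zero' _ _ h1
  · exact Eventually.of_forall fun N => mul_nonneg (C_nonneg S N) (u_nonneg δ _)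
  · filter_upwards [eventually_gt_atTop 0] with N hN
    have hN' : (0:ℝ) < N := by exact_mod_cast hN
    calc C S N * u δ (N + 1) ≤ N * u δ N := by
          apply mul_le_mul (C_le S N) (u_anti hδ hN) (u_nonneg _ _) hN'.le
      _ = ((N : ℝ) ^ δ)⁻¹ := by
          unfold u
          rw [Real.rpow_add hN', Real.rpow_one]
          field_simp

lemma gS_div {δ : ℝ} (hδ : 0 < δ) (S : Set ℕ) (n : ℕ) [Decidable (n ∈ S)] :
    gS δ S n / n = if n ∈ S then u δ n else 0 := by
  classical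
  simp only [gS, coe_mk]
  split_ifs with h1
  · rw [g_div hδ]; rfl
  · simp

/-- weighted mean: sum of C(n)(u(n)-u(n+1)) is D S δ -/
lemma hasSum_C {δ : ℝ} (hδ : 0 < δ) (S : Set ℕ) :
    HasSum (fun n : ℕ => C S (n + 1) * (u δ (n + 1) - u δ (n + 1 + 1))) (D S δ) := by
  classical
  rw [hasSum_iff_tendsto_nat_of_nonneg]
  · have h1 : Tendsto (fun N : ℕ => ∑ n ∈ range N, (if n + 1 ∈ S then u δ (n + 1) else 0)) atTop (𝓝 (D S δ)) := by
      have h2 := (summable_gS_div hδ S).hasSum
      have h3 := (hasSum_nat_add_iff' 1).mpr h2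
      have h4 := h3.tendsto_sum_nat
      simp only [gS_div hδ] at h4
      have h5 : (∑ i ∈ range 1, if i ∈ S then u δ i else 0) = 0 := by
        rw [Finset.sum_range_one]
        unfold u
        have : (1 + δ) ≠ 0 := by linarith
        simp [Real.zero_rpow this]
      rw [h5, sub_zero] at h4
      unfold D
      simp only [gS_div hδ]
      exact h4
    have h2 := h1.sub (tail_tendsto hδ S)
    rw [sub_zero] at h2
    refine h2.congr ?_
    intro N
    rw [← sum_by_parts]; ring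
  · intro n
    apply mul_nonneg (C_nonneg S _)
    have := u_anti hδ (n := n + 1) (by omega)
    linarith

lemma C_univ (n : ℕ) : C Set.univ n = n := by
  classical
  unfold C; simp

lemma D_univ (δ : ℝ) : D Set.univ δ = Z δ := by
  unfold D Z
  congr 1
  ext n
  simp [gS]

/-- weights -/
noncomputable def w (δ : ℝ) (n : ℕ) : ℝ := n * (u δ n - u δ (n + 1))

lemma w_nonneg {δ : ℝ} (hδ : 0 < δ) (n : ℕ) : 0 ≤ w δ n := by
  by_cases hn : n = 0
  · simp [w, hn]
  · unfold w
    have := u_anti hδ (n := n) (by omega)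
    apply mul_nonneg (by positivity); linarith

lemma hasSum_w {δ : ℝ} (hδ : 0 < δ) : HasSum (fun n : ℕ => w δ (n + 1)) (Z δ) := by
  have := hasSum_C hδ Set.univ
  rw [D_univ] at this
  convert! this using 2 with n
  rw [C_univ]; rfl

end Pool.Agent.Helper4.DE
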