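import Pool.Agent.Helper4.DE3
open Filter Topology Finset ArithmeticFunction

namespace Pool.Agent.Helper4.DE

open Classical in
/-- logarithmic counting sum -/
noncomputable def Lg (B : Set ℕ) (N : ℕ) : ℝ := ∑ n ∈ (Ioc 0 N).filter (· ∈ B), (1 : ℝ) / n

/-- logarithmic density l -/
def LogDens (B : Set ℕ) (l : ℝ) : Prop :=
  Tendsto (fun N : ℕ => Lg B N / Real.log N) atTop (𝓝 l)

/-- bad set of scales -/
def Bad (S : Set ℕ) (ε : ℝ) : Set ℕ := {n | t S + ε < C S n / n}

lemma sum_w_le {δ : ℝ} (hδ : 0 < δ) {S : Set ℕ} :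
    HasSum (fun n : ℕ => w δ (n + 1) * (C S (n + 1) / ((n + 1 : ℕ) : ℝ) - t S)) (D S δ - t S * Z δ) := by
  have h1 := (hasSum_C hδ S).sub ((hasSum_w hδ).mul_left (t S))
  convert! h1 using 2 with n
  unfold w
  have : (((n + 1 : ℕ)) : ℝ) ≠ 0 := by positivity
  field_simp

open Classical in
lemma sum_bad_le {δ : ℝ} (hδ : 0 < δ) {S : Set ℕ} (hS : IsMultClosed S) {ε η : ℝ} (hε : 0 < ε)
    (hη : 0 < η) {n0 : ℕ} (hn0 : ∀ n, n0 ≤ n → t S - η < C S n / n) (N : ℕ) :
    ε * ∑ n ∈ (Ioc 0 N).filter (· ∈ Bad S ε), w δ n ≤ η * Z δ + n0 * n0 := by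
  -- pointwise lower bound
  have hw1 : ∀ n : ℕ, w δ n ≤ n := by
    intro n
    by_cases hn : n = 0
    · simp [w, hn]
    · unfold w
      have h1 : u δ n ≤ 1 := by
        unfold u
        apply inv_le_one_of_one_le₀
        apply Real.one_le_rpow _ (by linarith)
        exact_mod_cast Nat.one_le_iff_ne_zero.mpr hn
      have h2 := u_nonneg δ (n + 1)
      have : (0:ℝ) ≤ n := by positivity
      nlinarith
  have key : ∀ n : ℕ, (if n + 1 ∈ (Ioc 0 N).filter (· ∈ Bad S ε) then ε * w δ (n + 1) else 0)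
      - η * w δ (n + 1) - (if n + 1 < n0 then (n0 : ℝ) else 0)
      ≤ w δ (n + 1) * (C S (n + 1) / ((n + 1 : ℕ) : ℝ) - t S) := by
    intro n
    have hw := w_nonneg hδ (n + 1)
    have hr := ratio_nonneg S (n + 1)
    have ht1 := t_le_one S
    have ht0 := t_nonneg S
    by_cases hb : n + 1 ∈ Bad S ε
    · have hb' : ε < C S (n + 1) / ((n + 1 : ℕ) : ℝ) - t S := by
        have : t S + ε < C S (n + 1) / ((n + 1 : ℕ) : ℝ) := hb
        linarith
      have h3 : w δ (n + 1) * ε ≤ w δ (n + 1) * (C S (n + 1) / ((n + 1 : ℕ) : ℝ) - t S) := by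
        gcongr
      have h4 : 0 ≤ η * w δ (n + 1) := by positivity
      have h5 : (0:ℝ) ≤ (if n + 1 < n0 then (n0 : ℝ) else 0) := by split_ifs <;> positivity
      have h6 : (if n + 1 ∈ (Ioc 0 N).filter (· ∈ Bad S ε) then ε * w δ (n + 1) else 0) ≤ ε * w δ (n + 1) := by
        split_ifs
        · exact le_rfl
        · positivity
      linarith
    · have h6 : (if n + 1 ∈ (Ioc 0 N).filter (· ∈ Bad S ε) then ε * w δ (n + 1) else 0) = 0 := by
        rw [if_neg]
        simp [hb]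
      rw [h6]
      by_cases hn : n + 1 < n0
      · rw [if_pos hn]
        have h7 : w δ (n + 1) ≤ n0 := by
          refine (hw1 (n + 1)).trans ?_
          exact_mod_cast hn.le
        have h8 : -(w δ (n + 1)) ≤ w δ (n + 1) * (C S (n + 1) / ((n + 1 : ℕ) : ℝ) - t S) := by
          nlinarith
        have h4 : 0 ≤ η * w δ (n + 1) := by positivity
        linarith
      · rw [if_neg hn]
        have h9 := hn0 (n + 1) (by omega)
        nlinarith
  have hs1 : HasSum (fun n : ℕ => (if n + 1 ∈ (Ioc 0 N).filter (· ∈ Bad S ε) then ε * w δ (n + 1) else 0))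
      (ε * ∑ n ∈ (Ioc 0 N).filter (· ∈ Bad S ε), w δ n) := by
    have h1 : ε * ∑ n ∈ (Ioc 0 N).filter (· ∈ Bad S ε), w δ n
        = ∑ n ∈ range N, (if n + 1 ∈ (Ioc 0 N).filter (· ∈ Bad S ε) then ε * w δ (n + 1) else 0) := by
      rw [Finset.mul_sum, Finset.sum_filter, Finset.range_eq_Ico, Finset.sum_Ico_add' (fun n => (if n ∈ (Ioc 0 N).filter (· ∈ Bad S ε) then ε * w δ n else 0)) 0 N 1]
      have : Finset.Ico (0 + 1) (N + 1) = Ioc 0 N := by
        ext k; simp only [Finset.mem_Ico, Finset.mem_Ioc]; omega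
      rw [this]
      apply Finset.sum_congr rfl
      intro k hk
      simp [hk]
    rw [h1]
    apply hasSum_sum_of_ne_finset_zero
    intro n hn
    rw [if_neg]
    simp only [Finset.mem_filter, Finset.mem_Ioc, not_and, Finset.mem_range] at hn ⊢
    intro h; omega
  have hs2 : HasSum (fun n : ℕ => (if n + 1 < n0 then (n0 : ℝ) else 0)) (∑ n ∈ range n0, (if n + 1 < n0 then (n0 : ℝ) else 0)) := by
    apply hasSum_sum_of_ne_finset_zero
    intro n hn
    rw [if_neg]
    simp only [Finset.mem_range] at hn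
    omega
  have hle := hasSum_le key ((hs1.sub ((hasSum_w hδ).mul_left η)).sub hs2) (sum_w_le hδ)
  have hD := D_le hδ hS
  have h3 : ∑ n ∈ range n0, (if n + 1 < n0 then (n0 : ℝ) else 0) ≤ n0 * n0 := by
    calc ∑ n ∈ range n0, (if n + 1 < n0 then (n0 : ℝ) else 0) ≤ ∑ n ∈ range n0, (n0 : ℝ) := by
          apply Finset.sum_le_sum
          intro i _
          split_ifs
          · exact le_rfl
          · positivity
      _ = n0 * n0 := by simp
  linarith

lemma inv_le_w {N n : ℕ} (hN : 3 ≤ N) (hn : 0 < n) (hnN : n ≤ N) :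
    (1 : ℝ) / n ≤ 2 * Real.exp 1 * w (1 / Real.log N) n := by
  have hlog : 0 < Real.log N := Real.log_pos (by exact_mod_cast (by omega : 1 < N))
  set δ := 1 / Real.log N with hδdef
  have hδ : 0 < δ := by positivity
  have hn' : (0:ℝ) < n := by exact_mod_cast hn
  have h1 : u δ (n + 1) ≤ u δ n * (n / (n + 1)) := by
    unfold u
    push_cast
    rw [Real.rpow_add hn', Real.rpow_one, Real.rpow_add (by positivity : (0:ℝ) < n + 1), Real.rpow_one]
    have h2 : (n:ℝ) ^ δ ≤ ((n:ℝ) + 1) ^ δ := Real.rpow_le_rpow hn'.le (by linarith) hδ.le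
    have h3 : (0:ℝ) < (n:ℝ) ^ δ := by positivity
    rw [mul_inv, mul_inv]
    have h4 : ((n:ℝ))⁻¹ * ((n:ℝ) ^ δ)⁻¹ * (n / (n + 1)) = ((n:ℝ) + 1)⁻¹ * ((n:ℝ) ^ δ)⁻¹ := by
      field_simp
    rw [h4]
    gcongr
  have h5 : u δ n / 2 ≤ w δ n := by
    unfold w
    have h6 : u δ n * (n / (n + 1)) = u δ n - u δ n / (n + 1) := by field_simp; ring
    have h7 : u δ n / (n + 1) ≤ u δ n - u δ (n + 1) := by linarith
    have h8 : u δ n / 2 ≤ n * (u δ n / (n + 1)) := by
      have : (1:ℝ) ≤ n := by exact_mod_cast hn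
      have h9 := u_nonneg δ n
      rw [mul_div_assoc', le_div_iff₀ (by positivity)]
      nlinarith
    calc u δ n / 2 ≤ n * (u δ n / (n + 1)) := h8
      _ ≤ n * (u δ n - u δ (n + 1)) := by gcongr
  have h10 : (1:ℝ) / n ≤ Real.exp 1 * u δ n := by
    unfold u
    rw [Real.rpow_add hn', Real.rpow_one]
    have h11 : (n:ℝ) ^ δ ≤ Real.exp 1 := by
      rw [Real.rpow_def_of_pos hn']
      apply Real.exp_le_exp.mpr
      rw [hδdef, mul_one_div, div_le_one hlog]
      apply Real.log_le_log hn'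
      exact_mod_cast hnN
    rw [mul_inv, ← div_eq_mul_inv, one_div]
    have h12 : (0:ℝ) < (n:ℝ) ^ δ := by positivity
    rw [← mul_div_assoc, le_div_iff₀ h12, mul_comm (Real.exp 1)]
    gcongr
  have := Real.exp_pos 1
  nlinarith

lemma bad_logDens {S : Set ℕ} (hS : IsMultClosed S) {ε : ℝ} (hε : 0 < ε) : LogDens (Bad S ε) 0 := by
  classical
  have hZ : Tendsto (fun N : ℕ => (1 / Real.log N) * Z (1 / Real.log N)) atTop (𝓝 1) := by
    apply Z_tendsto.comp
    apply tendsto_nhdsWithin_iff.mpr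
    constructor
    · have := (Real.tendsto_log_atTop.comp (tendsto_natCast_atTop_atTop (R := ℝ))).inv_tendsto_atTop
      refine this.congr ?_
      intro N; simp
    · filter_upwards [eventually_ge_atTop 3] with N hN
      have : 0 < Real.log N := Real.log_pos (by exact_mod_cast (by omega : 1 < N))
      simp only [Set.mem_Ioi]; positivity
  have hlogtop : Tendsto (fun N : ℕ => Real.log N) atTop atTop := Real.tendsto_log_atTop.comp tendsto_natCast_atTop_atTop
  rw [LogDens, Metric.tendsto_atTop']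
  intro a ha
  -- choose η
  set η : ℝ := a * ε / (16 * Real.exp 1) with hηdef
  have he := Real.exp_pos 1
  have hη : 0 < η := by positivity
  obtain ⟨n0, hn0⟩ := eventually_atTop.mp (eventually_gt S hη)
  have h2 : ∀ᶠ N : ℕ in atTop, (1 / Real.log N) * Z (1 / Real.log N) < 2 := hZ.eventually (gt_mem_nhds (by norm_num))
  have h3 : ∀ᶠ N : ℕ in atTop, 2 * Real.exp 1 * (n0 * n0 : ℝ) * 4 / (a * ε) < Real.log N := hlogtop.eventually_gt_atTop _
  obtain ⟨N1, hN1⟩ := eventually_atTop.mp (h2.and (h3.and (eventually_ge_atTop 3)))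
  refine ⟨N1, fun N hN => ?_⟩
  obtain ⟨hA, hB, hC⟩ := hN1 N hN.le
  have hlog : 0 < Real.log N := Real.log_pos (by exact_mod_cast (by omega : 1 < N))
  have hlog1 : 1 ≤ Real.log N := by
    rw [Real.le_log_iff_exp_le (by positivity)]
    have := Real.exp_one_lt_d9
    have h3' : (3:ℝ) ≤ N := by exact_mod_cast hC
    linarith
  have h4 := sum_bad_le (by positivity : 0 < 1 / Real.log N) hS hε hη hn0 N
  have h5 : Lg (Bad S ε) N ≤ 2 * Real.exp 1 * ∑ n ∈ (Ioc 0 N).filter (· ∈ Bad S ε), w (1 / Real.log N) n := by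
    unfold Lg
    rw [Finset.mul_sum]
    apply Finset.sum_le_sum
    intro n hn
    rw [Finset.mem_filter, Finset.mem_Ioc] at hn
    exact inv_le_w hC hn.1.1 hn.1.2
  have h6 : 0 ≤ Lg (Bad S ε) N := Finset.sum_nonneg fun _ _ => by positivity
  rw [Real.dist_eq, sub_zero, abs_of_nonneg (by positivity), div_lt_iff₀ hlog]
  have h7 : Z (1 / Real.log N) < 2 * Real.log N := by
    rw [one_div, inv_mul_lt_iff₀ hlog] at hA
    simpa [mul_comm] using hA
  rw [div_lt_iff₀ (by positivity)] at hB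
  have h8 : ε * Lg (Bad S ε) N ≤ 2 * Real.exp 1 * (η * Z (1 / Real.log N) + n0 * n0) := by
    calc ε * Lg (Bad S ε) N ≤ ε * (2 * Real.exp 1 * ∑ n ∈ (Ioc 0 N).filter (· ∈ Bad S ε), w (1 / Real.log N) n) := by gcongr
      _ = 2 * Real.exp 1 * (ε * ∑ n ∈ (Ioc 0 N).filter (· ∈ Bad S ε), w (1 / Real.log N) n) := by ring
      _ ≤ _ := by gcongr
  have h9 : 2 * Real.exp 1 * (η * Z (1 / Real.log N)) < a * ε / 4 * Real.log N := by
    calc 2 * Real.exp 1 * (η * Z (1 / Real.log N)) < 2 * Real.exp 1 * (η * (2 * Real.log N)) := by gcongr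
      _ = a * ε / 4 * Real.log N := by rw [hηdef]; field_simp; ring
  have h10 : ε * Lg (Bad S ε) N < ε * (a * Real.log N) := by
    have : 0 < a * ε * Real.log N := by positivity
    nlinarith
  exact lt_of_mul_lt_mul_left h10 hε.le

end Pool.Agent.Helper4.DE
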