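import Pool.Agent.Helper4.DE4
open Filter Topology Finset ArithmeticFunction

namespace Pool.Agent.Helper4.DE

lemma Lg_nonneg (B : Set ℕ) (N : ℕ) : 0 ≤ Lg B N := by
  unfold Lg; exact Finset.sum_nonneg fun _ _ => by positivity

lemma Lg_mono' {A B : Set ℕ} (N : ℕ) (h : ∀ n, 0 < n → n ≤ N → n ∈ A → n ∈ B) : Lg A N ≤ Lg B N := by
  classical
  unfold Lg
  apply Finset.sum_le_sum_of_subset_of_nonneg
  · intro n hn
    rw [Finset.mem_filter, Finset.mem_Ioc] at hn ⊢
    exact ⟨hn.1, h n hn.1.1 hn.1.2 hn.2⟩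
  · intros; positivity

lemma Lg_union (A B : Set ℕ) (N : ℕ) : Lg (A ∪ B) N ≤ Lg A N + Lg B N := by
  classical
  unfold Lg
  rw [Finset.sum_filter, Finset.sum_filter, Finset.sum_filter, ← Finset.sum_add_distrib]
  apply Finset.sum_le_sum
  intro n _
  have h0 : (0:ℝ) ≤ 1 / n := by positivity
  by_cases h1 : n ∈ A
  · have h3 : n ∈ A ∪ B := Or.inl h1
    rw [if_pos h1, if_pos h3]
    split_ifs <;> linarith
  · by_cases h2 : n ∈ B
    · have h3 : n ∈ A ∪ B := Or.inr h2
      rw [if_neg h1, if_pos h3, if_pos h2]; linarith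
    · have h3 : n ∉ A ∪ B := fun h => h.elim h1 h2
      rw [if_neg h1, if_neg h3, if_neg h2]; linarith

lemma logDens_zero_of_le {A : Set ℕ} {f : ℕ → ℝ} (hf : Tendsto (fun N : ℕ => f N / Real.log N) atTop (𝓝 0))
    (h : ∀ N, Lg A N ≤ f N) : LogDens A 0 := by
  unfold LogDens
  apply squeeze_zero' _ _ hf
  · filter_upwards [eventually_ge_atTop 1] with N hN
    exact div_nonneg (Lg_nonneg A N) (Real.log_nonneg (by exact_mod_cast hN))
  · filter_upwards [eventually_ge_atTop 1] with N hN
    exact div_le_div_of_nonneg_right (h N) (Real.log_nonneg (by exact_mod_cast hN))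

lemma logDens_zero_union {A B : Set ℕ} (hA : LogDens A 0) (hB : LogDens B 0) : LogDens (A ∪ B) 0 := by
  apply logDens_zero_of_le (f := fun N => Lg A N + Lg B N) _ (Lg_union A B)
  have := hA.add hB
  simp only [add_zero] at this
  refine this.congr ?_
  intro N; ring

/-- union of the first sets -/
def cum (B : ℕ → Set ℕ) : ℕ → Set ℕ
  | 0 => B 0
  | (j + 1) => cum B j ∪ B (j + 1)

lemma cum_mono (B : ℕ → Set ℕ) : Monotone (cum B) :=
  monotone_nat_of_le_succ fun _ => Set.subset_union_left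

lemma subset_cum (B : ℕ → Set ℕ) (j : ℕ) : B j ⊆ cum B j := by
  cases j with
  | zero => exact subset_rfl
  | succ j => exact Set.subset_union_right

lemma diag (B : ℕ → Set ℕ) (hB : ∀ j, LogDens (B j) 0) :
    ∃ E : Set ℕ, LogDens E 0 ∧ ∀ j, ∀ᶠ n in atTop, n ∈ B j → n ∈ E := by
  have hc : ∀ j, LogDens (cum B j) 0 := by
    intro j
    induction j with
    | zero => exact hB 0
    | succ j ih => exact logDens_zero_union ih (hB (j + 1))
  have h1 : ∀ j : ℕ, ∀ᶠ k : ℕ in atTop, ∀ N ≥ k, Lg (cum B j) N ≤ 1 / ((j : ℝ) + 1) * Real.log N := by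
    intro j
    have h2 : ∀ᶠ N : ℕ in atTop, Lg (cum B j) N / Real.log N < 1 / ((j : ℝ) + 1) :=
      (hc j).eventually (gt_mem_nhds (by positivity))
    obtain ⟨N0, hN0⟩ := eventually_atTop.mp (h2.and (eventually_ge_atTop 2))
    filter_upwards [eventually_ge_atTop N0] with k hk
    intro N hN
    obtain ⟨h3, h4⟩ := hN0 N (by omega)
    have : 0 < Real.log N := Real.log_pos (by exact_mod_cast h4)
    rw [div_lt_iff₀ this] at h3
    exact h3.le
  obtain ⟨φ, hφ, hφ2⟩ := extraction_forall_of_eventually h1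
  refine ⟨{n | ∃ j, φ j ≤ n ∧ n ∈ cum B j}, ?_, ?_⟩
  · unfold LogDens
    rw [Metric.tendsto_atTop]
    intro a ha
    obtain ⟨J, hJ⟩ := exists_nat_one_div_lt ha
    refine ⟨max (φ J) 2, fun N hN => ?_⟩
    have hNJ : φ J ≤ N := le_trans (le_max_left _ _) hN
    have hN2 : 2 ≤ N := le_trans (le_max_right _ _) hN
    have hlog : 0 < Real.log N := Real.log_pos (by exact_mod_cast hN2)
    set j := Nat.findGreatest (fun j => φ j ≤ N) N with hj
    have hj1 : φ j ≤ N := by
      apply Nat.findGreatest_spec (P := fun j => φ j ≤ N) (m := J) _ hNJ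
      exact le_trans (hφ.id_le J) hNJ
    have hj2 : J ≤ j := Nat.le_findGreatest (le_trans (hφ.id_le J) hNJ) hNJ
    have h3 : Lg {n | ∃ j, φ j ≤ n ∧ n ∈ cum B j} N ≤ Lg (cum B j) N := by
      apply Lg_mono'
      rintro n _ hnN ⟨i, hi1, hi2⟩
      have : i ≤ j := Nat.le_findGreatest (le_trans (hφ.id_le i) (le_trans hi1 hnN)) (le_trans hi1 hnN)
      exact cum_mono B this hi2
    have h4 := hφ2 j N hj1
    rw [Real.dist_eq, sub_zero, abs_of_nonneg (div_nonneg (Lg_nonneg _ _) hlog.le), div_lt_iff₀ hlog]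
    have h5 : 1 / ((j:ℝ) + 1) ≤ 1 / ((J:ℝ) + 1) := by
      apply one_div_le_one_div_of_le (by positivity)
      have : (J:ℝ) ≤ j := by exact_mod_cast hj2
      linarith
    calc _ ≤ 1 / ((j:ℝ) + 1) * Real.log N := h3.trans h4
      _ ≤ 1 / ((J:ℝ) + 1) * Real.log N := by gcongr
      _ < a * Real.log N := by gcongr
  · intro j
    filter_upwards [eventually_ge_atTop (φ j)] with n hn hnB
    exact ⟨j, hn, subset_cum B j hnB⟩

lemma Lg_univ_tendsto : LogDens Set.univ 1 := by
  classical
  have h1 : ∀ N : ℕ, Lg Set.univ N = (harmonic N : ℝ) := by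
    intro N
    unfold Lg
    simp only [Set.mem_univ, Finset.filter_true]
    rw [harmonic_eq_sum_Icc]
    push_cast
    apply Finset.sum_congr
    · ext k; simp only [Finset.mem_Ioc, Finset.mem_Icc]; omega
    · intros; rw [one_div]
  have hlogtop : Tendsto (fun N : ℕ => Real.log N) atTop atTop := Real.tendsto_log_atTop.comp tendsto_natCast_atTop_atTop
  unfold LogDens
  simp_rw [h1]
  have h2 : Tendsto (fun N : ℕ => ((harmonic N : ℝ) - Real.log N) / Real.log N + 1) atTop (𝓝 (0 + 1)) := by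
    apply Tendsto.add_const
    apply Tendsto.div_atTop Real.tendsto_harmonic_sub_log hlogtop
  rw [zero_add] at h2
  refine h2.congr' ?_
  filter_upwards [eventually_ge_atTop 2] with N hN
  have : 0 < Real.log N := Real.log_pos (by exact_mod_cast hN)
  field_simp
  ring

lemma Lg_compl (A : Set ℕ) (N : ℕ) : Lg Aᶜ N = Lg Set.univ N - Lg A N := by
  classical
  unfold Lg
  simp only [Set.mem_univ, Finset.filter_true, Set.mem_compl_iff]
  have := Finset.sum_filter_add_sum_filter_not (Ioc 0 N) (· ∈ A) (fun n : ℕ => (1:ℝ) / n)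
  linarith

lemma logDens_compl {A : Set ℕ} {l : ℝ} (h : LogDens A l) : LogDens Aᶜ (1 - l) := by
  unfold LogDens at *
  have := Lg_univ_tendsto.sub h
  refine this.congr ?_
  intro N; rw [Lg_compl]; ring

/-- partial summation for logarithmic sums -/
lemma Lg_by_parts (S : Set ℕ) (N : ℕ) :
    Lg S N = ∑ n ∈ Ioc 0 N, (C S n / n) * (1 / ((n : ℝ) + 1)) + C S N / ((N : ℝ) + 1) := by
  classical
  induction N with
  | zero => simp [Lg, C]
  | succ N ih =>
    have h1 : Ioc 0 (N + 1) = insert (N + 1) (Ioc 0 N) := by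
      ext k; simp only [Finset.mem_Ioc, Finset.mem_insert]; omega
    have h2 : Lg S (N + 1) = Lg S N + if N + 1 ∈ S then (1:ℝ) / ((N:ℝ) + 1) else 0 := by
      unfold Lg
      rw [h1, Finset.filter_insert]
      split_ifs with h3
      · rw [Finset.sum_insert]
        · push_cast; ring
        · simp
      · simp
    rw [h2, ih, h1, Finset.sum_insert (by simp), C_succ]
    push_cast
    split_ifs
    · field_simp; ring
    · field_simp; ring

lemma logDens_of_multClosed {S : Set ℕ} (hS : IsMultClosed S) : LogDens S (t S) := by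
  classical
  have hlogtop : Tendsto (fun N : ℕ => Real.log N) atTop atTop := Real.tendsto_log_atTop.comp tendsto_natCast_atTop_atTop
  have hU := Lg_univ_tendsto
  have ht0 := t_nonneg S
  have ht1 := t_le_one S
  unfold LogDens
  rw [Metric.tendsto_atTop]
  intro a ha
  -- upper and lower estimates
  have hbad := bad_logDens hS (ε := a / 8) (by positivity)
  obtain ⟨n0, hn0⟩ := eventually_atTop.mp (eventually_gt S (η := a / 8) (by positivity))
  have e1 : ∀ᶠ N : ℕ in atTop, Lg Set.univ N / Real.log N < 1 + a / 8 := hU.eventually (gt_mem_nhds (by linarith))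
  have e2 : ∀ᶠ N : ℕ in atTop, 1 - a / 8 < Lg Set.univ N / Real.log N := hU.eventually (lt_mem_nhds (by linarith))
  have e3 : ∀ᶠ N : ℕ in atTop, Lg (Bad S (a / 8)) N / Real.log N < a / 8 := hbad.eventually (gt_mem_nhds (by positivity))
  have e4 : ∀ᶠ N : ℕ in atTop, 8 * ((n0 : ℝ) + 2) / a < Real.log N := hlogtop.eventually_gt_atTop _
  obtain ⟨N1, hN1⟩ := eventually_atTop.mp (e1.and (e2.and (e3.and (e4.and (eventually_ge_atTop 2)))))
  refine ⟨N1, fun N hN => ?_⟩
  obtain ⟨f1, f2, f3, f4, f5⟩ := hN1 N hN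
  have hlog : 0 < Real.log N := Real.log_pos (by exact_mod_cast f5)
  rw [div_lt_iff₀ hlog] at f1 f3
  rw [lt_div_iff₀ hlog] at f2
  rw [div_lt_iff₀ ha] at f4
  have hCN : 0 ≤ C S N / ((N:ℝ) + 1) := div_nonneg (C_nonneg S N) (by positivity)
  have hCN1 : C S N / ((N:ℝ) + 1) ≤ 1 := by
    rw [div_le_one (by positivity)]
    have := C_le S N
    linarith
  -- upper
  have hup : Lg S N ≤ (t S + a / 8) * Lg Set.univ N + Lg (Bad S (a / 8)) N + 1 := by
    rw [Lg_by_parts S N]
    have : ∑ n ∈ Ioc 0 N, (C S n / n) * (1 / ((n : ℝ) + 1)) ≤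
        (t S + a / 8) * Lg Set.univ N + Lg (Bad S (a / 8)) N := by
      unfold Lg
      simp only [Set.mem_univ, Finset.filter_true]
      rw [Finset.sum_filter, Finset.mul_sum, ← Finset.sum_add_distrib]
      apply Finset.sum_le_sum
      intro n hn
      rw [Finset.mem_Ioc] at hn
      have hn0' : (0:ℝ) < n := by exact_mod_cast hn.1
      have h1 : (1:ℝ) / ((n:ℝ) + 1) ≤ 1 / n := by
        apply one_div_le_one_div_of_le hn0'; linarith
      have h2 := ratio_nonneg S n
      have h3 := ratio_le_one S n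
      have h4 : (0:ℝ) < 1 / n := by positivity
      have h5 : C S n / n * (1 / ((n:ℝ) + 1)) ≤ C S n / n * (1 / n) := by gcongr
      split_ifs with hb
      · have h6 : C S n / n * (1 / n) ≤ 1 / n := by nlinarith
        have h7 : 0 ≤ (t S + a / 8) * (1 / n) := by positivity
        linarith
      · have h6 : C S n / n ≤ t S + a / 8 := by
          by_contra hcon
          exact hb (not_le.mp hcon)
        have h7 : C S n / n * (1 / n) ≤ (t S + a / 8) * (1 / n) := by gcongr
        linarith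
    linarith
  -- lower
  have hlow : (t S - a / 8) * Lg Set.univ N - n0 - 2 ≤ Lg S N := by
    rw [Lg_by_parts S N]
    have h0 : (t S - a / 8) * Lg Set.univ N - n0 - 2 ≤ ∑ n ∈ Ioc 0 N, (C S n / n) * (1 / ((n : ℝ) + 1)) := by
      have h1 : ∀ n ∈ Ioc 0 N, (t S - a / 8) * (1 / n) - (1 / (n:ℝ) - 1 / ((n:ℝ) + 1)) - (if n < n0 then (1:ℝ) else 0)
          ≤ (C S n / n) * (1 / ((n : ℝ) + 1)) := by
        intro n hn
        rw [Finset.mem_Ioc] at hn
        have hn0' : (0:ℝ) < n := by exact_mod_cast hn.1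
        have hn1 : (1:ℝ) ≤ n := by exact_mod_cast hn.1
        have h1 : (1:ℝ) / ((n:ℝ) + 1) ≤ 1 / n := by
          apply one_div_le_one_div_of_le hn0'; linarith
        have h2 := ratio_nonneg S n
        have h4 : (0:ℝ) < 1 / ((n:ℝ) + 1) := by positivity
        have h4' : (1:ℝ) / n ≤ 1 := by rw [div_le_one hn0']; exact hn1
        have h8 : (t S - a / 8) * (1 / n) - (1 / (n:ℝ) - 1 / ((n:ℝ) + 1)) ≤ (t S - a / 8) * (1 / ((n:ℝ) + 1)) := by
          have : (t S - a / 8) * (1 / (n:ℝ) - 1 / ((n:ℝ) + 1)) ≤ 1 * (1 / (n:ℝ) - 1 / ((n:ℝ) + 1)) := by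
            apply mul_le_mul_of_nonneg_right (by linarith) (by linarith)
          linarith
        split_ifs with hc
        · have h9 : (t S - a / 8) * (1 / ((n:ℝ) + 1)) ≤ 1 := by
            have : (1:ℝ) / ((n:ℝ) + 1) ≤ 1 := by linarith
            nlinarith
          have h10 : 0 ≤ C S n / n * (1 / ((n:ℝ) + 1)) := by positivity
          linarith
        · have h9 := hn0 n (by omega)
          have h10 : (t S - a / 8) * (1 / ((n:ℝ) + 1)) ≤ C S n / n * (1 / ((n:ℝ) + 1)) := by gcongr
          linarith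
      have h2 := Finset.sum_le_sum h1
      refine le_trans ?_ h2
      rw [Finset.sum_sub_distrib, Finset.sum_sub_distrib, ← Finset.mul_sum]
      have h3 : ∑ n ∈ Ioc 0 N, (1:ℝ) / n = Lg Set.univ N := by unfold Lg; simp
      rw [h3]
      have h4 : ∑ n ∈ Ioc 0 N, (1 / (n:ℝ) - 1 / ((n:ℝ) + 1)) ≤ 1 := by
        have h5 : ∀ M : ℕ, ∑ n ∈ Ioc 0 M, (1 / (n:ℝ) - 1 / ((n:ℝ) + 1)) = 1 - 1 / ((M:ℝ) + 1) := by
          intro M
          induction M with
          | zero => simp
          | succ M ih =>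
            have : Ioc 0 (M + 1) = insert (M + 1) (Ioc 0 M) := by
              ext k; simp only [Finset.mem_Ioc, Finset.mem_insert]; omega
            rw [this, Finset.sum_insert (by simp), ih]
            push_cast; ring
        rw [h5]
        have : (0:ℝ) ≤ 1 / ((N:ℝ) + 1) := by positivity
        linarith
      have h6 : ∑ n ∈ Ioc 0 N, (if n < n0 then (1:ℝ) else 0) ≤ n0 := by
        rw [← Finset.sum_filter, Finset.sum_const, nsmul_eq_mul, mul_one]
        have : ((Ioc 0 N).filter (· < n0)).card ≤ (range n0).card := by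
          apply Finset.card_le_card
          intro k hk
          rw [Finset.mem_filter] at hk
          rw [Finset.mem_range]; exact hk.2
        rw [Finset.card_range] at this
        exact_mod_cast this
      linarith
    linarith
  rw [Real.dist_eq, abs_lt]
  have hn0r : (0:ℝ) ≤ n0 := by positivity
  constructor
  · rw [lt_sub_iff_add_lt, lt_div_iff₀ hlog]
    by_cases hneg : t S - a / 8 < 0
    · have : (-a + t S) * Real.log N < 0 := by
        apply mul_neg_of_neg_of_pos (by linarith) hlog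
      have := Lg_nonneg S N
      linarith
    · push Not at hneg
      have h11 : (t S - a / 8) * ((1 - a / 8) * Real.log N) ≤ (t S - a / 8) * Lg Set.univ N := by gcongr
      nlinarith
  · rw [sub_lt_iff_lt_add, div_lt_iff₀ hlog]
    have h11 : (t S + a / 8) * Lg Set.univ N ≤ (t S + a / 8) * ((1 + a / 8) * Real.log N) := by gcongr
    by_cases ha1 : a ≤ 8
    · nlinarith
    · -- trivial bound when a is large
      push Not at ha1
      have h12 : Lg S N ≤ Lg Set.univ N := Lg_mono' N fun n _ _ _ => Set.mem_univ n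
      have h13 : (1 + a / 8) * Real.log N < (a + t S) * Real.log N := by
        apply mul_lt_mul_of_pos_right _ hlog
        linarith
      linarith

/-- convergence off the bad sets -/
lemma tendsto_ratio {S : Set ℕ} {X : Set ℕ} (hX : ∀ k : ℕ, ∀ᶠ n in atTop, n ∈ X → n ∉ Bad S (1 / ((k:ℝ) + 1))) :
    Tendsto (fun n : ℕ => C S n / n) (atTop ⊓ 𝓟 X) (𝓝 (t S)) := by
  rw [Metric.tendsto_nhds]
  intro a ha
  obtain ⟨k, hk⟩ := exists_nat_one_div_lt ha
  rw [eventually_inf_principal]
  filter_upwards [hX k, eventually_gt S ha] with n h1 h2 hn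
  have h3 := h1 hn
  have h4 : C S n / n ≤ t S + 1 / ((k:ℝ) + 1) := by
    by_contra hcon
    exact h3 (not_le.mp hcon)
  rw [Real.dist_eq, abs_lt]
  constructor <;> linarith

end Pool.Agent.Helper4.DE
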